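import Mathlib
import Pool.Agent.TH53.HR6
import Pool.Agent.TH860.LP.Poly

/-!
# Local factors

Let `f` be congruent to `A B` modulo the prime `p`, with `A`, `B` coprime, and let `A` divide
`G(X ^ m)` modulo `p`. Then the values `G(z ^ m)` are divisible by `p` for `deg A` zeros `z` of `f`.
-/

set_option autoImplicit false

open Polynomial Finset Module IntermediateField

namespace Pool.Agent.TH860.LQ

open Pool.Agent.TH53.HR Pool.Agent.H388SL Pool.Agent.H389R3.LR
  Pool.Agent.H389R3.LP

open Pool.Agent.TH53.SL hiding powZeros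

open Pool.Agent.TH860.LP (powZeros)

/-- **the inequality for monic irreducible polynomials** -/
theorem poly_local {p : ℕ} (hp : p.Prime) (f : ℤ[X]) (hf : Irreducible f) (hm : f.Monic)
    (m : ℕ) (A B : (ZMod p)[X]) (hAB : f.map (Int.castRingHom (ZMod p)) = A * B)
    (hco : IsCoprime A B) (G : ℤ[X]) (hGm : G.Monic) (hG0 : 0 < G.natDegree)
    (hAG : A ∣ (G.comp (X ^ m)).map (Int.castRingHom (ZMod p))) :
    0 < powZeros m f ∧ powZeros m f ≤ f.natDegree ∧
    (A.natDegree : ℝ) * (A.natDegree * powZeros m f - 2 * G.natDegree * f.natDegree) *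
      Real.log p ≤ G.natDegree * f.natDegree * (f.natDegree * Real.log (powZeros m f) +
        2 * powZeros m f * (m * Real.log (f.map (Int.castRingHom ℂ)).mahlerMeasure)) := by
  classical
  have hdeg : f.natDegree ≠ 0 := by
    intro h
    have := hm.natDegree_eq_zero.mp h
    exact hf.not_isUnit (this ▸ isUnit_one)
  obtain ⟨z, hz⟩ := IsAlgClosed.exists_aeval_eq_zero ℂ f (by
    intro h
    exact hdeg (natDegree_eq_of_degree_eq_some h))
  have hzi : IsIntegral ℤ z := ⟨f, hm, by rw [← Polynomial.aeval_def]; exact hz⟩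
  have hzQ : IsIntegral ℚ z := hzi.tower_top
  have hmin : minpoly ℤ z = f := by
    have h1 := minpoly.isIntegrallyClosed_dvd hzi hz
    have h2 : Associated (minpoly ℤ z) f :=
      (minpoly.irreducible hzi).associated_of_dvd hf h1
    exact eq_of_monic_of_associated (minpoly.monic hzi) hm h2
  set L := adjoin ℚ {z} with hL
  have hfin : FiniteDimensional ℚ L := adjoin.finiteDimensional hzQ
  have : NumberField L := { to_charZero := inferInstance, to_finiteDimensional := hfin }
  set α : L := AdjoinSimple.gen ℚ z with hα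
  have hαz : algebraMap L ℂ α = z := AdjoinSimple.algebraMap_gen ℚ z
  have hαi : IsIntegral ℤ α := by
    rw [← hαz] at hzi
    exact (isIntegral_algebraMap_iff (algebraMap L ℂ).injective).mp hzi
  have hαc : CInj α := by
    intro σ τ h
    apply adjoin_algHom_ext ℚ (s := {z})
    intro x hx
    rw [Set.mem_singleton_iff] at hx
    subst hx
    exact h
  have hminα : minpoly ℤ α = f := by
    rw [← hmin, ← hαz]
    exact (minpoly.algebraMap_eq (algebraMap L ℂ).injective α).symm
  have hpmap : f.map (Int.castRingHom ℂ) = ∏ τ : L →ₐ[ℚ] ℂ, (X - C (τ α)) := by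
    rw [← minpoly_map_eq hαc, minpoly.isIntegrallyClosed_eq_field_fractions' ℚ hαi, hminα,
      Polynomial.map_map]
    rfl
  have hMM : Real.log (f.map (Int.castRingHom ℂ)).mahlerMeasure = lam α := by
    rw [hpmap]
    have h1 : (∏ τ : L →ₐ[ℚ] ℂ, (X - C (τ α))).mahlerMeasure = ∏ τ : L →ₐ[ℚ] ℂ, max 1 ‖τ α‖ := by
      rw [Finset.prod_eq_multiset_prod, prod_mahlerMeasure_eq_mahlerMeasure_prod, Multiset.map_map,
        Finset.prod_eq_multiset_prod]
      congr 1
      refine Multiset.map_congr rfl fun τ _ => ?_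
      rw [Function.comp_apply, mahlerMeasure_X_sub_C]
    rw [h1, Real.log_prod]
    · rfl
    · intro τ _
      have : (0:ℝ) < max 1 ‖τ α‖ := lt_of_lt_of_le one_pos (le_max_left _ _)
      exact this.ne'
  have hfr : finrank ℚ L = f.natDegree := by
    rw [hL, adjoin.finrank hzQ, minpoly.isIntegrallyClosed_eq_field_fractions' ℚ hzi, hmin]
    exact natDegree_map_eq_of_injective (algebraMap ℤ ℚ).injective_int f
  obtain ⟨V, hV⟩ := exists_val p hp
  have hαV : ∀ σ : L →ₐ[ℚ] ℂ, σ α ∈ V := fun σ => hV.int _ (hαi.map (σ.restrictScalars ℤ))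
  -- the good embeddings
  let good : ℂ → Prop := fun y => aeval y G / p ∈ V
  set S : Finset (L →ₐ[ℚ] ℂ) := Finset.univ.filter fun σ => good (σ α ^ m) with hS
  have hcount : A.natDegree ≤ S.card := by
    refine count_good hp hV f (fun σ : L →ₐ[ℚ] ℂ => (⟨σ α, hαV σ⟩ : V)) hpmap A B hAB hco
      (G.comp (X ^ m)) 1 (by rw [pow_one]; exact hAG) S (fun σ hσ => ?_)
    rw [hS, Finset.mem_filter]
    refine ⟨Finset.mem_univ _, ?_⟩
    rw [pow_one, aeval_comp, aeval_X_pow] at hσ
    exact hσ
  -- the subfield generated by `α ^ m`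
  set β : L := α ^ m with hβ
  have hβi : IsIntegral ℤ β := hαi.pow _
  set K' := ℚ⟮β⟯ with hK'
  set γ : K' := AdjoinSimple.gen ℚ β with hγ
  have hγβ : algebraMap K' L γ = β := AdjoinSimple.algebraMap_gen ℚ β
  have hγi : IsIntegral ℤ γ := by
    rw [← hγβ] at hβi
    exact (isIntegral_algebraMap_iff (algebraMap K' L).injective).mp hβi
  let v : (K' →ₐ[ℚ] ℂ) → ℂ := fun τ => τ γ
  have hvinj : Function.Injective v := by
    intro σ τ h
    apply adjoin_algHom_ext ℚ (s := {β})
    intro x hx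
    rw [Set.mem_singleton_iff] at hx
    subst hx
    exact h
  have hint : ∀ u, IsIntegral ℤ (v u) := fun u => hγi.map (u.restrictScalars ℤ)
  have hs : ∀ j : ℕ, ∃ m : ℤ, ∑ u, v u ^ j = m := by
    intro j
    obtain ⟨m, hm⟩ := trace_int (hγi.pow j)
    refine ⟨m, ?_⟩
    rw [← hm]
    refine Finset.sum_congr rfl fun σ _ => ?_
    rw [map_pow]
  have hmin' : minpoly ℚ β = minpoly ℚ γ := by
    rw [← hγβ]
    exact minpoly.algebraMap_eq (algebraMap K' L).injective γ
  have hrange : (Set.range fun σ : L →ₐ[ℚ] ℂ => σ α ^ m) = Set.range v := by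
    have h1 := (NumberField.isAlgebraic L).range_eval_eq_rootSet_minpoly ℂ β
    have h2 := (NumberField.isAlgebraic K').range_eval_eq_rootSet_minpoly ℂ γ
    have h3 : (fun σ : L →ₐ[ℚ] ℂ => σ α ^ m) = fun σ : L →ₐ[ℚ] ℂ => σ β := by
      funext σ
      rw [hβ, map_pow]
    rw [h3, h1, hmin', ← h2]
  have hn : Fintype.card (K' →ₐ[ℚ] ℂ) = finrank ℚ K' := AlgHom.card ℚ K' ℂ
  set T : Finset (K' →ₐ[ℚ] ℂ) := Finset.univ.filter fun τ => good (v τ) with hT
  have hgen := Pool.Agent.TH53.HR.gen_ineq (p := p) (V := V) hp hV v hvinj hint hs Tᶜ G hGm hG0 (fun τ hτ => by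
    rw [Finset.mem_compl, not_not, hT, Finset.mem_filter] at hτ
    exact hτ.2)
  have hTc : ((Fintype.card (K' →ₐ[ℚ] ℂ) : ℝ) - (Tᶜ.card : ℝ)) = T.card := by
    rw [Finset.card_compl, Nat.cast_sub (Finset.card_le_univ T)]
    ring
  rw [hTc, hn] at hgen
  have hdeg' : finrank ℚ K' * finrank K' L = finrank ℚ L := finrank_mul_finrank ℚ K' L
  have hx0 : 0 < finrank ℚ K' := finrank_pos
  have hy0 : 0 < finrank K' L := finrank_pos
  have hx0' : (0 : ℝ) < finrank ℚ K' := by exact_mod_cast hx0
  have hy0' : (0 : ℝ) < finrank K' L := by exact_mod_cast hy0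
  -- fibres
  have hfib : S.card = finrank K' L * T.card := by
    have h1 := prod_emb β (fun z => if good z then (2 : ℝ) else 1)
    have h2 : ∏ σ : L →ₐ[ℚ] ℂ, (if good (σ β) then (2 : ℝ) else 1) = 2 ^ S.card := by
      rw [Finset.prod_ite, Finset.prod_const, Finset.prod_const_one, mul_one, hS]
      congr 2
      refine Finset.filter_congr fun σ _ => ?_
      rw [hβ, map_pow]
    have h3 : ∏ τ : K' →ₐ[ℚ] ℂ, (if good (τ γ) then (2 : ℝ) else 1) = 2 ^ T.card := by
      rw [Finset.prod_ite, Finset.prod_const, Finset.prod_const_one, mul_one, hT]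
    rw [h2] at h1
    have h4 : (2 : ℝ) ^ S.card = (2 ^ T.card) ^ finrank K' L := by
      rw [h1, ← h3]
    rw [← pow_mul] at h4
    have h5 := pow_right_injective₀ (a := (2 : ℝ)) (by norm_num) (by norm_num) h4
    rw [h5, mul_comm]
  have hlam : lam β = finrank K' L * ∑ u, Real.log (max 1 ‖v u‖) := by
    have h1 := prod_emb β (fun z => max 1 ‖z‖)
    have hpos : ∀ z : ℂ, (max 1 ‖z‖ : ℝ) ≠ 0 := fun z =>
      (lt_of_lt_of_le one_pos (le_max_left _ _)).ne'
    have h2 := congrArg Real.log h1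
    rw [Real.log_prod (fun σ _ => hpos _), Real.log_pow, Real.log_prod (fun σ _ => hpos _)] at h2
    exact h2
  have hpow : lam β = (m : ℝ) * lam α := by rw [hβ, lam_pow]
  have hN : powZeros m f = finrank ℚ K' := by
    have h1 : (fun z : ℂ => z ^ m) '' (f.rootSet ℂ) = Set.range v := by
      rw [← hrange]
      have h2 := (NumberField.isAlgebraic L).range_eval_eq_rootSet_minpoly ℂ α
      have h3 : f.rootSet ℂ = (minpoly ℚ α).rootSet ℂ := by
        rw [minpoly.isIntegrallyClosed_eq_field_fractions' ℚ hαi, hminα]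
        ext y
        rw [mem_rootSet', mem_rootSet', Polynomial.map_map, aeval_map_algebraMap]
        constructor
        · rintro ⟨h5, h6⟩
          refine ⟨?_, h6⟩
          exact (hm.map _).ne_zero
        · rintro ⟨h5, h6⟩
          exact ⟨(hm.map _).ne_zero, h6⟩
      rw [h3, ← h2, ← Set.range_comp]
      rfl
    unfold powZeros
    rw [h1, ← Set.image_univ, Set.ncard_image_of_injective _ hvinj, Set.ncard_univ,
      Nat.card_eq_fintype_card, hn]
  have hlp : 0 < Real.log p := Real.log_pos (by exact_mod_cast hp.one_lt)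
  have hG0' : (0 : ℝ) < G.natDegree := by exact_mod_cast hG0
  have hsum : 0 ≤ ∑ u, Real.log (max 1 ‖v u‖) :=
    Finset.sum_nonneg fun _ _ => Real.log_nonneg (le_max_left _ _)
  have hlogx : 0 ≤ Real.log (finrank ℚ K') := Real.log_nonneg (by exact_mod_cast hx0)
  refine ⟨hN ▸ hx0, ?_, ?_⟩
  · rw [hN, ← hfr, ← hdeg']
    exact Nat.le_mul_of_pos_right _ hy0
  rw [hMM, hN, ← hfr, ← hpow, hlam, ← hdeg']
  set x : ℝ := ((finrank ℚ K' : ℕ) : ℝ) with hx
  set y : ℝ := ((finrank K' L : ℕ) : ℝ) with hy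
  set D : ℝ := ((G.natDegree : ℕ) : ℝ) with hD
  set a : ℝ := ((A.natDegree : ℕ) : ℝ) with ha
  set g : ℝ := ((T.card : ℕ) : ℝ) with hg
  set W : ℝ := ∑ u, Real.log (max 1 ‖v u‖) with hW
  have hag : a ≤ y * g := by
    rw [ha, hy, hg]
    have := hcount
    rw [hfib] at this
    exact_mod_cast this
  have ha0 : 0 ≤ a := Nat.cast_nonneg _
  push_cast
  have hR : 0 ≤ D * (x * y) * (x * y * Real.log x + 2 * x * (y * W)) := by positivity
  rcases le_or_gt (a * x) (2 * D * (x * y)) with h1 | h1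
  · refine le_trans ?_ hR
    apply mul_nonpos_of_nonpos_of_nonneg _ hlp.le
    exact mul_nonpos_of_nonneg_of_nonpos ha0 (by linarith)
  · have h2 : a * (a * x - 2 * D * (x * y)) ≤ (y * g) * ((y * g) * x - 2 * D * (x * y)) := by
      apply mul_le_mul hag _ (by linarith) (by positivity)
      have := mul_le_mul_of_nonneg_right hag hx0'.le
      linarith
    have h3 : (y * g) * ((y * g) * x - 2 * D * (x * y)) = x * y ^ 2 * (g * (g - 2 * D)) := by ring
    calc a * (a * x - 2 * D * (x * y)) * Real.log p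
        ≤ (y * g) * ((y * g) * x - 2 * D * (x * y)) * Real.log p :=
          mul_le_mul_of_nonneg_right h2 hlp.le
      _ = x * y ^ 2 * (g * (g - 2 * D) * Real.log p) := by rw [h3]; ring
      _ ≤ x * y ^ 2 * (D * (x * (Real.log x + 2 * W))) :=
          mul_le_mul_of_nonneg_left hgen (by positivity)
      _ = D * (x * y) * (x * y * Real.log x + 2 * x * (y * W)) := by ring

end Pool.Agent.TH860.LQ
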