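import Mathlib
import Pool.Agent.TH53.SL6
import Pool.Agent.TH860.LP.Fin
import Pool.Agent.TH860.LQ.Core

/-!
# Local factors: consequences for Lehmer's problem
-/

set_option autoImplicit false

open Polynomial

namespace Pool.Agent.TH860.LQ

open Pool.Agent.TH53.HR Pool.Agent.H389R3.PR

open Pool.Agent.TH53.SL hiding powZeros

open Pool.Agent.TH860.LP (powZeros powZeros_neg)

/-- `x ↦ x ^ (p ^ r)` on polynomials modulo `p` -/
lemma comp_pow_mod {p : ℕ} (hp : p.Prime) (r : ℕ) (g : (ZMod p)[X]) :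
    g.comp (X ^ p ^ r) = g ^ p ^ r := by
  have : Fact p.Prime := ⟨hp⟩
  rw [← expand_eq_comp_X_pow]
  induction r generalizing g with
  | zero => simp
  | succ b ih => rw [pow_succ, ← Polynomial.expand_expand, ih, ZMod.expand_card, ← pow_mul, mul_comm]

/-- a monic lift -/
lemma exists_lift {p : ℕ} (hp : p.Prime) (P : (ZMod p)[X]) (hP : P.Monic) :
    ∃ Φ : ℤ[X], Φ.Monic ∧ Φ.natDegree = P.natDegree ∧ Φ.map (Int.castRingHom (ZMod p)) = P := by
  have : Fact p.Prime := ⟨hp⟩
  have h1 : P ∈ lifts (Int.castRingHom (ZMod p)) := by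
    rw [mem_lifts]
    exact Polynomial.map_surjective _ (ZMod.ringHom_surjective _) P
  obtain ⟨Φ, h2, h3, h4⟩ := lifts_and_natDegree_eq_and_monic h1 hP
  exact ⟨Φ, h4, h3, h2⟩

/-- the auxiliary polynomial for factors with large multiplicities -/
lemma exists_W {K : Type*} [Field K] (Q n : ℕ) (hQ : 0 < Q) (A : K[X]) :
    A ≠ 0 → (∀ R : K[X], Irreducible R → R ∣ A → R ^ n ∣ A) →
    ∃ W : K[X], W.Monic ∧ A ∣ W ^ Q ∧ n * (W.natDegree * Q) ≤ (n + Q) * A.natDegree := by
  classical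
  refine UniqueFactorizationMonoid.induction_on_coprime A ?_ ?_ ?_ ?_
  · intro h
    exact absurd rfl h
  · intro x hx _ _
    refine ⟨1, monic_one, ?_, ?_⟩
    · rw [one_pow]
      exact hx.dvd
    · rw [natDegree_one, zero_mul, mul_zero]
      exact Nat.zero_le _
  · intro R i hR h0 h
    rcases Nat.eq_zero_or_pos i with rfl | hi
    · refine ⟨1, monic_one, ?_, ?_⟩
      · rw [one_pow, pow_zero]
      · rw [natDegree_one, zero_mul, mul_zero]
        exact Nat.zero_le _
    have h1 := h R hR.irreducible (dvd_pow_self R hi.ne')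
    have h2 : n ≤ i := (pow_dvd_pow_iff hR.ne_zero hR.not_unit).mp h1
    have hRn : (normalize R).Monic := Polynomial.monic_normalize hR.ne_zero
    have hRd : (normalize R).natDegree = R.natDegree := by
      rw [Polynomial.natDegree_eq_of_degree_eq (Polynomial.degree_normalize)]
    refine ⟨(normalize R) ^ (i / Q + 1), hRn.pow _, ?_, ?_⟩
    · rw [← pow_mul]
      refine ((normalize_associated R).symm.dvd.trans (dvd_refl _)) |> fun h3 => ?_
      refine (pow_dvd_pow_of_dvd h3 i).trans (pow_dvd_pow _ ?_)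
      have h4 := Nat.div_add_mod i Q
      have h5 := Nat.mod_lt i hQ
      nlinarith
    · rw [hRn.natDegree_pow, hRd, natDegree_pow]
      have h4 : i / Q * Q ≤ i := Nat.div_mul_le_self i Q
      have h5 : n * ((i / Q + 1) * Q) ≤ (n + Q) * i := by
        have h6 : n * (i / Q * Q) ≤ n * i := Nat.mul_le_mul_left n h4
        have h7 : n * Q ≤ i * Q := Nat.mul_le_mul_right Q h2
        nlinarith
      calc n * ((i / Q + 1) * R.natDegree * Q) = n * ((i / Q + 1) * Q) * R.natDegree := by ring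
        _ ≤ (n + Q) * i * R.natDegree := Nat.mul_le_mul_right _ h5
        _ = _ := by ring
  · intro x y hxy hx hy h0 h
    have hx0 : x ≠ 0 := fun h1 => h0 (by rw [h1, zero_mul])
    have hy0 : y ≠ 0 := fun h1 => h0 (by rw [h1, mul_zero])
    have hc : IsCoprime x y := hxy.isCoprime
    obtain ⟨W1, h1, h2, h3⟩ := hx hx0 (fun R hR hRx => by
      have h4 := h R hR (hRx.mul_right y)
      have h5 : IsCoprime (R ^ n) y := (hc.of_isCoprime_of_dvd_left hRx).pow_left
      exact h5.dvd_of_dvd_mul_right h4)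
    obtain ⟨W2, h1', h2', h3'⟩ := hy hy0 (fun R hR hRy => by
      have h4 := h R hR (hRy.mul_left x)
      have h5 : IsCoprime (R ^ n) x := (hc.symm.of_isCoprime_of_dvd_left hRy).pow_left
      exact h5.dvd_of_dvd_mul_left h4)
    refine ⟨W1 * W2, h1.mul h1', ?_, ?_⟩
    · rw [mul_pow]
      exact mul_dvd_mul h2 h2'
    · rw [h1.natDegree_mul h1', natDegree_mul hx0 hy0]
      calc n * ((W1.natDegree + W2.natDegree) * Q)
          = n * (W1.natDegree * Q) + n * (W2.natDegree * Q) := by ring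
        _ ≤ (n + Q) * x.natDegree + (n + Q) * y.natDegree := Nat.add_le_add h3 h3'
        _ = _ := by ring

/-- the auxiliary polynomial in characteristic zero -/
lemma exists_aux {p : ℕ} (hp : p.Prime) (r n : ℕ) (A : (ZMod p)[X]) (hA : A ≠ 0)
    (hn : ∀ R : (ZMod p)[X], Irreducible R → R ∣ A → R ^ n ∣ A) :
    ∃ G : ℤ[X], G.Monic ∧ A ∣ (G.comp (X ^ p ^ r)).map (Int.castRingHom (ZMod p)) ∧
      n * (G.natDegree * p ^ r) ≤ (n + p ^ r) * A.natDegree ∧
      (0 < A.natDegree → 0 < G.natDegree) := by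
  have : Fact p.Prime := ⟨hp⟩
  obtain ⟨W, h1, h2, h3⟩ := exists_W (p ^ r) n (pow_pos hp.pos r) A hA hn
  obtain ⟨G, h4, h5, h6⟩ := exists_lift hp W h1
  refine ⟨G, h4, ?_, by rw [h5]; exact h3, fun h => ?_⟩
  · rw [Polynomial.map_comp, Polynomial.map_pow, Polynomial.map_X, h6, comp_pow_mod hp]
    exact h2
  · rw [h5]
    by_contra h7
    have h8 : W = 1 := h1.natDegree_eq_zero.mp (by omega)
    rw [h8, one_pow] at h2
    have h9 := natDegree_le_of_dvd h2 one_ne_zero
    rw [natDegree_one] at h9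
    omega

/-- **the criterion** -/
theorem local_quarter {p : ℕ} (hp : p.Prime) (f : ℤ[X]) (hf : Irreducible f)
    (hM : 1 < (f.map (Int.castRingHom ℂ)).mahlerMeasure) (m : ℕ) (hm : 1 ≤ m)
    (A B : (ZMod p)[X]) (hAB : f.map (Int.castRingHom (ZMod p)) = A * B) (hco : IsCoprime A B)
    (G : ℤ[X]) (hGm : G.Monic) (hG0 : 0 < G.natDegree)
    (hAG : A ∣ (G.comp (X ^ m)).map (Int.castRingHom (ZMod p)))
    (h : (G.natDegree : ℝ) * f.natDegree * (f.natDegree * Real.log (powZeros m f) +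
      powZeros m f * (m / 2) * Real.log 2) ≤
      A.natDegree * (A.natDegree * powZeros m f - 2 * G.natDegree * f.natDegree) * Real.log p) :
    (2 : ℝ) ^ ((1 : ℝ) / 4) ≤ (f.map (Int.castRingHom ℂ)).mahlerMeasure := by
  by_contra hcon
  push Not at hcon
  have h2 : (2 : ℝ) ^ ((1 : ℝ) / 4) ≤ 2 := by
    calc (2 : ℝ) ^ ((1 : ℝ) / 4) ≤ (2 : ℝ) ^ (1 : ℝ) :=
          Real.rpow_le_rpow_of_exponent_le (by norm_num) (by norm_num)
      _ = 2 := Real.rpow_one 2
  refine monic_or_neg f hf hM (hcon.trans_le h2) (Q := fun g =>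
    (∃ B' : (ZMod p)[X], g.map (Int.castRingHom (ZMod p)) = A * B' ∧ IsCoprime A B') ∧
    (G.natDegree : ℝ) * g.natDegree * (g.natDegree * Real.log (powZeros m g) +
      powZeros m g * (m / 2) * Real.log 2) ≤
      A.natDegree * (A.natDegree * powZeros m g - 2 * G.natDegree * g.natDegree) * Real.log p)
    ?_ ?_ ⟨⟨B, hAB, hco⟩, h⟩
  · rintro ⟨⟨B', hB', hco'⟩, h3⟩
    refine ⟨⟨-B', ?_, hco'.neg_right⟩, ?_⟩
    · rw [Polynomial.map_neg, hB', mul_neg]
    · rw [powZeros_neg, natDegree_neg]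
      exact h3
  · rintro g hg hgm hgM hgMf - ⟨⟨B', hB', hco'⟩, h3⟩
    obtain ⟨h4, h4', h5⟩ := poly_local hp g hg hgm m A B' hB' hco' G hGm hG0 hAG
    rw [hgMf] at h5
    set x := powZeros m g with hx
    have hx0 : (0 : ℝ) < x := by exact_mod_cast h4
    have hm0 : (0 : ℝ) < m := by exact_mod_cast hm
    have hG0' : (0 : ℝ) < G.natDegree := by exact_mod_cast hG0
    have hd0 : (0 : ℝ) < g.natDegree := by exact_mod_cast h4.trans_le h4'
    have hlM : Real.log (f.map (Int.castRingHom ℂ)).mahlerMeasure < Real.log 2 / 4 := by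
      have h6 := Real.log_lt_log (by linarith) hcon
      rw [Real.log_rpow (by norm_num)] at h6
      linarith
    have h9 : 2 * (x : ℝ) * ((m : ℝ) * Real.log (f.map (Int.castRingHom ℂ)).mahlerMeasure) <
        x * (m / 2) * Real.log 2 := by
      calc 2 * (x : ℝ) * ((m : ℝ) * Real.log (f.map (Int.castRingHom ℂ)).mahlerMeasure)
          < 2 * (x : ℝ) * ((m : ℝ) * (Real.log 2 / 4)) := by
            apply mul_lt_mul_of_pos_left _ (by positivity)
            exact mul_lt_mul_of_pos_left hlM hm0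
        _ = x * (m / 2) * Real.log 2 := by ring
    have h10 : (G.natDegree : ℝ) * g.natDegree * (g.natDegree * Real.log x +
        2 * x * ((m : ℝ) * Real.log (f.map (Int.castRingHom ℂ)).mahlerMeasure)) <
        G.natDegree * g.natDegree * (g.natDegree * Real.log x + x * (m / 2) * Real.log 2) := by
      apply mul_lt_mul_of_pos_left _ (by positivity)
      linarith
    linarith

/-- elementary estimates, large multiplicities -/
lemma arith_large {a D Q N d lp lN lM : ℝ} (ha : 0 < a) (hD : 0 ≤ D) (hQ0 : 0 < Q) (hN : 0 < N)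
    (hd : 0 < d) (hlp : 0 < lp) (hQ : 20 * d ≤ N * Q) (hQd : 20 * d * lN ≤ N * Q)
    (hDQ : 20 * (D * Q) ≤ 21 * a) (hlM : 0 ≤ lM)
    (h : a * (a * N - 2 * D * d) * lp ≤ D * d * (d * lN + 2 * N * (Q * lM))) :
    16 * (a * lp) < d * (1 + 40 * lM) := by
  have h1 : 2 * D * d ≤ 21 / 200 * (a * N) := by
    calc 2 * D * d = D / 10 * (20 * d) := by ring
      _ ≤ D / 10 * (N * Q) := mul_le_mul_of_nonneg_left hQ (by positivity)
      _ = N / 200 * (20 * (D * Q)) := by ring
      _ ≤ N / 200 * (21 * a) := mul_le_mul_of_nonneg_left hDQ (by positivity)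
      _ = _ := by ring
  have h2 : a * (179 / 200 * (a * N)) * lp ≤ a * (a * N - 2 * D * d) * lp := by
    apply mul_le_mul_of_nonneg_right _ hlp.le
    apply mul_le_mul_of_nonneg_left _ ha.le
    linarith
  have h3 : D * d * (d * lN + 2 * N * (Q * lM)) ≤ 21 / 20 * a * d * N * (1 / 20 + 2 * lM) := by
    calc D * d * (d * lN + 2 * N * (Q * lM))
        = D * d * ((20 * d * lN) / 20 + 2 * N * (Q * lM)) := by ring
      _ ≤ D * d * ((N * Q) / 20 + 2 * N * (Q * lM)) := by
          apply mul_le_mul_of_nonneg_left _ (by positivity)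
          linarith
      _ = (20 * (D * Q)) * (d * N * (1 / 20 + 2 * lM) / 20) := by ring
      _ ≤ (21 * a) * (d * N * (1 / 20 + 2 * lM) / 20) :=
          mul_le_mul_of_nonneg_right hDQ (by positivity)
      _ = _ := by ring
  have h4 : (a * N) * (179 / 200 * (a * lp)) ≤ (a * N) * (21 / 20 * (d * (1 / 20 + 2 * lM))) := by
    calc (a * N) * (179 / 200 * (a * lp)) = a * (179 / 200 * (a * N)) * lp := by ring
      _ ≤ 21 / 20 * a * d * N * (1 / 20 + 2 * lM) := by linarith
      _ = _ := by ring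
  have h5 := le_of_mul_le_mul_left h4 (by positivity)
  have h8 : 0 ≤ d * lM := by positivity
  nlinarith

/-- elementary estimates, multiplicities at least `Q` -/
lemma arith_small {a D Q N d lp lN lM : ℝ} (ha : 0 < a) (hD : 0 ≤ D) (hQ0 : 0 < Q) (hN : 0 < N)
    (hd : 0 < d) (hlp : 0 < lp) (hQ : 8 * d ≤ N * Q) (hlN : 0 ≤ lN)
    (hDQ : D * Q ≤ 2 * a) (hlM : 0 ≤ lM)
    (h : a * (a * N - 2 * D * d) * lp ≤ D * d * (d * lN + 2 * N * (Q * lM))) :
    a * lp ≤ 4 * d * (d / N * (lN / Q) + 2 * lM) := by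
  have h1 : 2 * D * d ≤ 1 / 2 * (a * N) := by
    calc 2 * D * d = D / 4 * (8 * d) := by ring
      _ ≤ D / 4 * (N * Q) := mul_le_mul_of_nonneg_left hQ (by positivity)
      _ = N / 4 * (D * Q) := by ring
      _ ≤ N / 4 * (2 * a) := mul_le_mul_of_nonneg_left hDQ (by positivity)
      _ = _ := by ring
  have h2 : a * (1 / 2 * (a * N)) * lp ≤ a * (a * N - 2 * D * d) * lp := by
    apply mul_le_mul_of_nonneg_right _ hlp.le
    apply mul_le_mul_of_nonneg_left _ ha.le
    linarith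
  have h3 : D * d * (d * lN + 2 * N * (Q * lM)) ≤
      (a * N) * (2 * (d * (d / N * (lN / Q) + 2 * lM))) := by
    calc D * d * (d * lN + 2 * N * (Q * lM))
        = (D * Q) * (N * (d * (d / N * (lN / Q) + 2 * lM))) := by field_simp
      _ ≤ (2 * a) * (N * (d * (d / N * (lN / Q) + 2 * lM))) :=
          mul_le_mul_of_nonneg_right hDQ (by positivity)
      _ = _ := by ring
  have h4 : (a * N) * (1 / 2 * (a * lp)) ≤
      (a * N) * (2 * (d * (d / N * (lN / Q) + 2 * lM))) := by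
    calc (a * N) * (1 / 2 * (a * lp)) = a * (1 / 2 * (a * N)) * lp := by ring
      _ ≤ _ := h2.trans (h.trans h3)
  have h5 := le_of_mul_le_mul_left h4 (by positivity)
  linarith

lemma natDegree_pos' {f : ℤ[X]} (hf : Irreducible f) (hm : f.Monic) : 0 < f.natDegree := by
  apply Nat.pos_of_ne_zero
  intro h
  have := hm.natDegree_eq_zero.mp h
  exact hf.not_isUnit (this ▸ isUnit_one)

lemma left_ne_zero {p : ℕ} (hp : p.Prime) {f : ℤ[X]} (hm : f.Monic) {A B : (ZMod p)[X]}
    (hAB : f.map (Int.castRingHom (ZMod p)) = A * B) : A ≠ 0 := by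
  have : Fact p.Prime := ⟨hp⟩
  intro h
  rw [h, zero_mul] at hAB
  exact (hm.map _).ne_zero hAB

/-- **large multiplicities** -/
theorem mult_large {p : ℕ} (hp : p.Prime) (f : ℤ[X]) (hf : Irreducible f) (hm : f.Monic)
    (hM : 1 < (f.map (Int.castRingHom ℂ)).mahlerMeasure) (A B : (ZMod p)[X]) (r : ℕ)
    (hAB : f.map (Int.castRingHom (ZMod p)) = A * B) (hco : IsCoprime A B)
    (hA : ∀ R : (ZMod p)[X], Irreducible R → R ∣ A → R ^ (20 * p ^ r) ∣ A)
    (hQ : 20 * f.natDegree ≤ powZeros (p ^ r) f * p ^ r)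
    (hQd : 20 * f.natDegree * Real.log (powZeros (p ^ r) f) ≤
      powZeros (p ^ r) f * (p : ℝ) ^ r) :
    16 * ((A.natDegree : ℝ) * Real.log p) <
      f.natDegree * (1 + 40 * Real.log (f.map (Int.castRingHom ℂ)).mahlerMeasure) := by
  have hd0 := natDegree_pos' hf hm
  have hd0' : (0 : ℝ) < f.natDegree := by exact_mod_cast hd0
  have hlM : 0 < Real.log (f.map (Int.castRingHom ℂ)).mahlerMeasure := Real.log_pos hM
  have hQ0 : 0 < p ^ r := pow_pos hp.pos r
  rcases Nat.eq_zero_or_pos A.natDegree with ha | ha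
  · rw [ha]
    push_cast
    rw [zero_mul, mul_zero]
    positivity
  obtain ⟨G, hGm, hdvd, hdeg, hpos⟩ := exists_aux hp r _ A (left_ne_zero hp hm hAB) hA
  obtain ⟨h1, h2, h3⟩ := poly_local hp f hf hm (p ^ r) A B hAB hco G hGm (hpos ha) hdvd
  have hDQ : 20 * (G.natDegree * p ^ r) ≤ 21 * A.natDegree := by
    refine Nat.le_of_mul_le_mul_left (c := p ^ r) ?_ hQ0
    calc p ^ r * (20 * (G.natDegree * p ^ r)) = 20 * p ^ r * (G.natDegree * p ^ r) := by ring
      _ ≤ (20 * p ^ r + p ^ r) * A.natDegree := hdeg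
      _ = _ := by ring
  rw [Nat.cast_pow] at h3
  refine arith_large (N := powZeros (p ^ r) f) (Q := (p : ℝ) ^ r) (D := G.natDegree)
    (lN := Real.log (powZeros (p ^ r) f)) (by exact_mod_cast ha)
    (Nat.cast_nonneg _) (by exact_mod_cast hQ0) (by exact_mod_cast h1) hd0'
    (Real.log_pos (by exact_mod_cast hp.one_lt)) (by exact_mod_cast hQ) hQd
    (by exact_mod_cast hDQ) hlM.le h3

/-- **multiplicities at least `Q`** -/
theorem mult_small {p : ℕ} (hp : p.Prime) (f : ℤ[X]) (hf : Irreducible f) (hm : f.Monic)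
    (hM : 1 < (f.map (Int.castRingHom ℂ)).mahlerMeasure) (A B : (ZMod p)[X]) (r : ℕ)
    (hAB : f.map (Int.castRingHom (ZMod p)) = A * B) (hco : IsCoprime A B)
    (hA : ∀ R : (ZMod p)[X], Irreducible R → R ∣ A → R ^ (p ^ r) ∣ A)
    (hQ : 8 * f.natDegree ≤ powZeros (p ^ r) f * p ^ r) :
    (A.natDegree : ℝ) * Real.log p ≤ 4 * f.natDegree *
      ((f.natDegree : ℝ) / powZeros (p ^ r) f * (Real.log (powZeros (p ^ r) f) / (p : ℝ) ^ r) +
      2 * Real.log (f.map (Int.castRingHom ℂ)).mahlerMeasure) := by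
  have hd0 := natDegree_pos' hf hm
  have hd0' : (0 : ℝ) < f.natDegree := by exact_mod_cast hd0
  have hlM : 0 < Real.log (f.map (Int.castRingHom ℂ)).mahlerMeasure := Real.log_pos hM
  have hQ0 : 0 < p ^ r := pow_pos hp.pos r
  have hN0 : 0 < powZeros (p ^ r) f := by
    by_contra h
    have : powZeros (p ^ r) f = 0 := by omega
    rw [this, zero_mul] at hQ
    omega
  have hlN : 0 ≤ Real.log (powZeros (p ^ r) f) := Real.log_nonneg (by exact_mod_cast hN0)
  rcases Nat.eq_zero_or_pos A.natDegree with ha | ha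
  · rw [ha]
    push_cast
    rw [zero_mul]
    positivity
  obtain ⟨G, hGm, hdvd, hdeg, hpos⟩ := exists_aux hp r _ A (left_ne_zero hp hm hAB) hA
  obtain ⟨h1, h2, h3⟩ := poly_local hp f hf hm (p ^ r) A B hAB hco G hGm (hpos ha) hdvd
  have hDQ : G.natDegree * p ^ r ≤ 2 * A.natDegree := by
    refine Nat.le_of_mul_le_mul_left (c := p ^ r) ?_ hQ0
    calc p ^ r * (G.natDegree * p ^ r) ≤ (p ^ r + p ^ r) * A.natDegree := hdeg
      _ = _ := by ring
  rw [Nat.cast_pow] at h3
  refine arith_small (N := powZeros (p ^ r) f) (Q := (p : ℝ) ^ r) (D := G.natDegree)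
    (lN := Real.log (powZeros (p ^ r) f)) (by exact_mod_cast ha)
    (Nat.cast_nonneg _) (by exact_mod_cast hQ0) (by exact_mod_cast h1) hd0'
    (Real.log_pos (by exact_mod_cast hp.one_lt)) (by exact_mod_cast hQ) hlN
    (by exact_mod_cast hDQ) hlM.le h3

/-- **large multiplicities and Lehmer's polynomial** -/
theorem mult_quarter {p : ℕ} (hp : p.Prime) (f : ℤ[X]) (hf : Irreducible f)
    (hM : 1 < (f.map (Int.castRingHom ℂ)).mahlerMeasure) (A B : (ZMod p)[X]) (r : ℕ)
    (hAB : f.map (Int.castRingHom (ZMod p)) = A * B) (hco : IsCoprime A B)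
    (hA : ∀ R : (ZMod p)[X], Irreducible R → R ∣ A → R ^ (20 * p ^ r) ∣ A)
    (hQ : 20 * f.natDegree ≤ powZeros (p ^ r) f * p ^ r)
    (hQd : 20 * f.natDegree * Real.log (powZeros (p ^ r) f) ≤
      powZeros (p ^ r) f * (p : ℝ) ^ r)
    (h : (f.natDegree : ℝ) ≤ 2 * (A.natDegree * Real.log p)) :
    (2 : ℝ) ^ ((1 : ℝ) / 4) ≤ (f.map (Int.castRingHom ℂ)).mahlerMeasure := by
  by_contra hcon
  push Not at hcon
  have h2 : (2 : ℝ) ^ ((1 : ℝ) / 4) ≤ 2 := by
    calc (2 : ℝ) ^ ((1 : ℝ) / 4) ≤ (2 : ℝ) ^ (1 : ℝ) :=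
          Real.rpow_le_rpow_of_exponent_le (by norm_num) (by norm_num)
      _ = 2 := Real.rpow_one 2
  refine monic_or_neg f hf hM (hcon.trans_le h2) (Q := fun g =>
    (∃ B' : (ZMod p)[X], g.map (Int.castRingHom (ZMod p)) = A * B' ∧ IsCoprime A B') ∧
    20 * g.natDegree ≤ powZeros (p ^ r) g * p ^ r ∧
    20 * g.natDegree * Real.log (powZeros (p ^ r) g) ≤ powZeros (p ^ r) g * (p : ℝ) ^ r ∧
    (g.natDegree : ℝ) ≤ 2 * (A.natDegree * Real.log p))
    ?_ ?_ ⟨⟨B, hAB, hco⟩, hQ, hQd, h⟩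
  · rintro ⟨⟨B', hB', hco'⟩, h3, h4, h5⟩
    refine ⟨⟨-B', ?_, hco'.neg_right⟩, ?_, ?_, ?_⟩
    · rw [Polynomial.map_neg, hB', mul_neg]
    · rw [powZeros_neg, natDegree_neg]
      exact h3
    · rw [powZeros_neg, natDegree_neg]
      exact h4
    · rw [natDegree_neg]
      exact h5
  · rintro g hg hgm hgM hgMf - ⟨⟨B', hB', hco'⟩, h3, h4, h5⟩
    have h6 := mult_large hp g hg hgm hgM A B' r hB' hco' hA h3 h4
    rw [hgMf] at h6
    have hd0 : (0 : ℝ) < g.natDegree := by exact_mod_cast natDegree_pos' hg hgm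
    have hlM : Real.log (f.map (Int.castRingHom ℂ)).mahlerMeasure < Real.log 2 / 4 := by
      have h6 := Real.log_lt_log (by linarith) hcon
      rw [Real.log_rpow (by norm_num)] at h6
      linarith
    have hl2 : Real.log 2 < 0.6931471808 := Real.log_two_lt_d9
    have h7 : (g.natDegree : ℝ) * (1 + 40 * Real.log (f.map (Int.castRingHom ℂ)).mahlerMeasure) ≤
        g.natDegree * 8 := by
      apply mul_le_mul_of_nonneg_left _ hd0.le
      linarith
    linarith

/-! ### Salem and Pisot numbers -/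

/-- the powers of the zeros are distinct -/
theorem salem_powZeros {β : ℝ} (hβ1 : 1 < β) (hβ : IsIntegral ℤ β)
    (hone : ∀ z : ℂ, aeval z (minpoly ℤ β) = 0 → z ≠ (β : ℂ) → ‖z‖ ≤ 1) (m : ℕ) (hm : 1 ≤ m) :
    powZeros m (minpoly ℤ β) = (minpoly ℤ β).natDegree := by
  classical
  set f := minpoly ℤ β with hf
  have hfm : f.Monic := minpoly.monic hβ
  have hirr : Irreducible f := minpoly.irreducible hβ
  unfold powZeros
  rw [Set.InjOn.ncard_image]
  · rw [rootSet_def, Set.ncard_coe_finset, aroots_def]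
    have hsep : (f.map (algebraMap ℤ ℂ)).Separable := by
      have h1 : f.map (algebraMap ℤ ℂ) = (f.map (algebraMap ℤ ℚ)).map (algebraMap ℚ ℂ) := by
        rw [Polynomial.map_map]
        rfl
      rw [h1, Polynomial.separable_map]
      have h2 : Irreducible (f.map (algebraMap ℤ ℚ)) :=
        (hfm.irreducible_iff_irreducible_map_fraction_map (K := ℚ)).mp hirr
      exact h2.separable
    rw [Multiset.toFinset_card_of_nodup (nodup_roots hsep),
      ← (IsAlgClosed.splits (f.map (algebraMap ℤ ℂ))).natDegree_eq_card_roots,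
      hfm.natDegree_map]
  · intro z hz w hw h
    have hz' := (mem_rootSet.mp hz).2
    have hw' := (mem_rootSet.mp hw).2
    exact salem_nondeg hβ1 hβ hone hz' hw' (by omega) h

/-- **Parry powers, local factors** -/
theorem parry_local {β : ℝ} (hβ1 : 1 < β) (hβ : IsIntegral ℤ β)
    (hP : ∀ z : ℂ, aeval z (minpoly ℤ β) = 0 → z ≠ (β : ℂ) → ‖z‖ < β)
    {p : ℕ} (hp : p.Prime) (m : ℕ) (hm : 1 ≤ m) (A B : (ZMod p)[X])
    (hAB : (minpoly ℤ β).map (Int.castRingHom (ZMod p)) = A * B) (hco : IsCoprime A B)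
    (G : ℤ[X]) (hGm : G.Monic) (hG0 : 0 < G.natDegree)
    (hAG : A ∣ (G.comp (X ^ m)).map (Int.castRingHom (ZMod p)))
    (h : (G.natDegree : ℝ) * (minpoly ℤ β).natDegree * (Real.log (minpoly ℤ β).natDegree +
      2 * m * Real.log β) <
      A.natDegree * (A.natDegree - 2 * G.natDegree) * Real.log p) : (parry β).Finite := by
  by_contra hinf
  have hone := fun z hz hne => conj_le_one hβ1 hβ hP hinf (z := z) hz hne
  have hM := mahler_eq hβ1 hβ hone
  have hx := salem_powZeros hβ1 hβ hone m hm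
  obtain ⟨h1, -, h3⟩ := poly_local hp _ (minpoly.irreducible hβ) (minpoly.monic hβ) m A B hAB hco
    G hGm hG0 hAG
  rw [hx] at h1
  rw [hx, hM] at h3
  have hd0 : (0 : ℝ) < (minpoly ℤ β).natDegree := by exact_mod_cast h1
  set d : ℝ := ((minpoly ℤ β).natDegree : ℝ) with hd
  have h4 : d * ((A.natDegree : ℝ) * (A.natDegree - 2 * G.natDegree) * Real.log p) ≤
      d * (G.natDegree * d * (Real.log d + 2 * m * Real.log β)) := by
    calc d * ((A.natDegree : ℝ) * (A.natDegree - 2 * G.natDegree) * Real.log p)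
        = (A.natDegree : ℝ) * (A.natDegree * d - 2 * G.natDegree * d) * Real.log p := by ring
      _ ≤ _ := h3
      _ = _ := by ring
  have h5 := le_of_mul_le_mul_left h4 hd0
  linarith

/-- **Parry powers, large multiplicities** -/
theorem parry_large {β : ℝ} (hβ1 : 1 < β) (hβ : IsIntegral ℤ β)
    (hP' : ∀ z : ℂ, aeval z (minpoly ℤ β) = 0 → z ≠ (β : ℂ) → ‖z‖ < β)
    {p : ℕ} (hp : p.Prime) (A B : (ZMod p)[X]) (r : ℕ)
    (hAB : (minpoly ℤ β).map (Int.castRingHom (ZMod p)) = A * B) (hco : IsCoprime A B)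
    (hA : ∀ R : (ZMod p)[X], Irreducible R → R ∣ A → R ^ (20 * p ^ r) ∣ A)
    (hQ : 20 ≤ p ^ r) (hQd : 20 * Real.log (minpoly ℤ β).natDegree ≤ (p : ℝ) ^ r)
    (h : (minpoly ℤ β).natDegree * (1 + 40 * Real.log β) ≤
      16 * ((A.natDegree : ℝ) * Real.log p)) : (parry β).Finite := by
  by_contra hinf
  have hone := fun z hz hne => conj_le_one hβ1 hβ hP' hinf (z := z) hz hne
  have hM := mahler_eq hβ1 hβ hone
  have hx := salem_powZeros hβ1 hβ hone (p ^ r) (pow_pos hp.pos r)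
  have h1 := mult_large hp _ (minpoly.irreducible hβ) (minpoly.monic hβ) (by rw [hM]; exact hβ1)
    A B r hAB hco hA (by rw [hx, mul_comm]; exact Nat.mul_le_mul_left _ hQ) (by
      rw [hx]
      have := mul_le_mul_of_nonneg_left hQd
        (Nat.cast_nonneg (minpoly ℤ β).natDegree : (0 : ℝ) ≤ (minpoly ℤ β).natDegree)
      linarith)
  rw [hM] at h1
  linarith

/-- **Parry powers, multiplicities at least `p ^ r`** -/
theorem parry_small {β : ℝ} (hβ1 : 1 < β) (hβ : IsIntegral ℤ β)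
    (hP' : ∀ z : ℂ, aeval z (minpoly ℤ β) = 0 → z ≠ (β : ℂ) → ‖z‖ < β)
    {p : ℕ} (hp : p.Prime) (A B : (ZMod p)[X]) (r : ℕ)
    (hAB : (minpoly ℤ β).map (Int.castRingHom (ZMod p)) = A * B) (hco : IsCoprime A B)
    (hA : ∀ R : (ZMod p)[X], Irreducible R → R ∣ A → R ^ (p ^ r) ∣ A)
    (hQ : 8 ≤ p ^ r)
    (h : 4 * (minpoly ℤ β).natDegree * (Real.log (minpoly ℤ β).natDegree / (p : ℝ) ^ r +
      2 * Real.log β) < (A.natDegree : ℝ) * Real.log p) : (parry β).Finite := by
  by_contra hinf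
  have hone := fun z hz hne => conj_le_one hβ1 hβ hP' hinf (z := z) hz hne
  have hM := mahler_eq hβ1 hβ hone
  have hx := salem_powZeros hβ1 hβ hone (p ^ r) (pow_pos hp.pos r)
  have hd0 : (0 : ℝ) < (minpoly ℤ β).natDegree := by
    exact_mod_cast minpoly.natDegree_pos hβ
  have h1 := mult_small hp _ (minpoly.irreducible hβ) (minpoly.monic hβ) (by rw [hM]; exact hβ1)
    A B r hAB hco hA (by rw [hx, mul_comm]; exact Nat.mul_le_mul_left _ hQ)
  rw [hM, hx, div_self hd0.ne', one_mul] at h1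
  linarith

end Pool.Agent.TH860.LQ
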