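import Mathlib
import Pool.Agent.TH860.LP.Rel2

/-!
# Local factors relative to an arbitrary field: the determinant inequality
-/

set_option autoImplicit false

open Polynomial Finset Module IntermediateField

namespace Pool.Agent.TH860.LQ

open Pool.Agent.TH53.HR Pool.Agent.TH53.SL Pool.Agent.H388SL Pool.Agent.H389R3.LR
  Pool.Agent.H389R3.LP Pool.Agent.TH860.LP

/-- integrality through valuation rings -/
lemma int_of_val {x : ℂ}
    (h : ∀ V : ValuationSubring ℂ, (∀ z : ℂ, IsIntegral ℤ z → z ∈ V) → x ∈ V) :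
    IsIntegral ℤ x := by
  by_contra hx
  have hx' : x ∉ (integralClosure ℤ ℂ).toSubring := hx
  have : IsIntegrallyClosedIn (integralClosure ℤ ℂ).toSubring ℂ :=
    inferInstanceAs (IsIntegrallyClosedIn (integralClosure ℤ ℂ) ℂ)
  obtain ⟨V, hV, hV2⟩ := Subring.exists_le_valuationSubring_of_isIntegrallyClosedIn hx'
  exact hV2 (h V fun z hz => hV hz)

variable {V : ValuationSubring ℂ}

/-- the auxiliary polynomials -/
noncomputable def auxC (N : ℕ) (v : Fin N → ℂ) (H : Finset (Fin N)) (F : ℂ[X]) (t m : ℕ) : ℂ[X] :=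
  if H.card ≤ m then (∏ u ∈ H, (X - C (v u))) *
    (X ^ ((m - H.card) % t) * F ^ ((m - H.card) / t)) else X ^ m

lemma auxC_monic {N : ℕ} (v : Fin N → ℂ) (H : Finset (Fin N)) {F : ℂ[X]} (hF : F.Monic)
    (t m : ℕ) : (auxC N v H F t m).Monic := by
  unfold auxC
  split_ifs
  · exact (monic_prod_of_monic _ _ fun u _ => monic_X_sub_C _).mul
      ((monic_X_pow _).mul (hF.pow _))
  · exact monic_X_pow m

lemma auxC_natDegree {N : ℕ} (v : Fin N → ℂ) (H : Finset (Fin N)) {F : ℂ[X]} (hF : F.Monic)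
    (m : ℕ) : (auxC N v H F F.natDegree m).natDegree = m := by
  unfold auxC
  split_ifs with h
  · rw [(monic_prod_of_monic _ _ fun u _ => monic_X_sub_C _).natDegree_mul
      ((monic_X_pow _).mul (hF.pow _)), (monic_X_pow _).natDegree_mul (hF.pow _),
      natDegree_X_pow, hF.natDegree_pow,
      natDegree_prod_of_monic _ _ fun u _ => monic_X_sub_C _]
    simp only [natDegree_X_sub_C, Finset.sum_const, smul_eq_mul, mul_one]
    have h2 := Nat.mod_add_div (m - H.card) F.natDegree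
    rw [mul_comm ((m - H.card) / F.natDegree)]
    omega
  · exact natDegree_X_pow m

/-- the values of the auxiliary polynomials -/
lemma auxC_eval_mem {q : ℕ} (hq : q ≠ 0) {N : ℕ} (v : Fin N → ℂ) (hv : ∀ i, v i ∈ V)
    (H : Finset (Fin N)) (F : ℂ[X]) (hF : ∀ i, i ∉ H → F.eval (v i) / q ∈ V) (t m : ℕ)
    (i : Fin N) :
    (auxC N v H F t m).eval (v i) / (q : ℂ) ^ ((m - H.card) / t) ∈ V := by
  have hp0 : (q : ℂ) ≠ 0 := by exact_mod_cast hq
  unfold auxC
  split_ifs with h
  · by_cases hi : i ∈ H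
    · have : (∏ u ∈ H, (X - C (v u))).eval (v i) = 0 := by
        rw [eval_prod]
        exact Finset.prod_eq_zero hi (by simp)
      rw [eval_mul, this, zero_mul, zero_div]
      exact V.zero_mem
    · have e : (((∏ u ∈ H, (X - C (v u))) *
          (X ^ ((m - H.card) % t) * F ^ ((m - H.card) / t))).eval (v i)) /
          (q : ℂ) ^ ((m - H.card) / t) = (∏ u ∈ H, (v i - v u)) * ((v i) ^ ((m - H.card) % t) *
            (F.eval (v i) / q) ^ ((m - H.card) / t)) := by
        rw [eval_mul, eval_mul, eval_pow, eval_pow, eval_X, eval_prod, div_pow]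
        simp only [eval_sub, eval_X, eval_C]
        ring
      rw [e]
      refine V.mul_mem _ _ (V.toSubring.prod_mem fun u _ => V.toSubring.sub_mem (hv i) (hv u))
        (V.mul_mem _ _ (V.toSubring.pow_mem (hv i) _) (V.toSubring.pow_mem (hF i hi) _))
  · have : (m - H.card) / t = 0 := by
      have : m - H.card = 0 := by omega
      rw [this]; simp
    rw [this, pow_zero, div_one, eval_pow, eval_X]
    exact V.toSubring.pow_mem (hv i) _

/-- **divisibility of the Vandermonde determinant** -/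
theorem vand_div_V {q : ℕ} (hq : q ≠ 0) {N : ℕ} (v : Fin N → ℂ) (hv : ∀ i, v i ∈ V)
    (H : Finset (Fin N)) (F : ℂ[X]) (hFm : F.Monic)
    (hF : ∀ i, i ∉ H → F.eval (v i) / q ∈ V) :
    (Matrix.vandermonde v).det /
      (q : ℂ) ^ (∑ m ∈ Finset.range N, (m - H.card) / F.natDegree) ∈ V := by
  have hp0 : (q : ℂ) ≠ 0 := by exact_mod_cast hq
  set t := F.natDegree with ht
  rw [Matrix.det_eval_matrixOfPolynomials_eq_det_vandermonde v
    (fun m : Fin N => auxC N v H F t (m : ℕ)) (fun m => auxC_natDegree v H hFm m)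
    (fun m => auxC_monic v H hFm t m)]
  have e : (Matrix.of fun i j : Fin N => (auxC N v H F t (j : ℕ)).eval (v i)) =
      Matrix.of fun i j : Fin N => (q : ℂ) ^ (((j : ℕ) - H.card) / t) *
        (Matrix.of fun i j : Fin N => (auxC N v H F t (j : ℕ)).eval (v i) /
          (q : ℂ) ^ (((j : ℕ) - H.card) / t)) i j := by
    ext i j
    simp only [Matrix.of_apply]
    field_simp
  rw [e, Matrix.det_mul_row, Finset.prod_pow_eq_pow_sum,
    Fin.sum_univ_eq_sum_range (fun m => (m - H.card) / t) N, mul_div_assoc, mul_comm,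
    div_mul_cancel₀ _ (pow_ne_zero _ hp0)]
  apply det_mem
  intro i j
  exact auxC_eval_mem hq v hv H F hF t j i

/-- **the determinant inequality in a number field `L`, for part of the conjugates, with
exceptions** -/
theorem rel_core_ex {L : Type*} [Field L] [NumberField L] {N : ℕ} (hN : 0 < N) (w : Fin N → L)
    (hint : ∀ i, IsIntegral ℤ (w i)) (hinj : Function.Injective w)
    (φ : L →ₐ[ℚ] ℂ) (F : ℂ[X]) (hFm : F.Monic) (hFt : 0 < F.natDegree) (q : ℕ) (hq : 1 < q)
    (g : ℕ) (hg : g ≤ N)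
    (hval : ∀ V : ValuationSubring ℂ, Good q V → ∃ H : Finset (Fin N), H.card = N - g ∧
      ∀ i, i ∉ H → F.eval (φ (w i)) / q ∈ V) :
    (finrank ℚ L : ℝ) * ((g : ℝ) * ((g : ℝ) - 2 * F.natDegree) * Real.log q) ≤
      F.natDegree * (N * (finrank ℚ L * Real.log N + 2 * ∑ i, lam (w i))) := by
  classical
  set S := ∑ j ∈ Finset.range N, (j - (N - g)) / F.natDegree with hS
  set Δ : L := (Matrix.vandermonde w).det with hΔ
  have hΔ0 : Δ ≠ 0 := Matrix.det_vandermonde_ne_zero_iff.mpr hinj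
  have hmap : ∀ σ : L →ₐ[ℚ] ℂ, σ Δ = (Matrix.vandermonde fun i => σ (w i)).det := by
    intro σ
    have h1 := RingHom.map_det (σ : L →+* ℂ) (Matrix.vandermonde w)
    have h2 : (σ : L →+* ℂ).mapMatrix (Matrix.vandermonde w) =
        Matrix.vandermonde fun i => σ (w i) := by
      ext i j
      simp [Matrix.vandermonde_apply]
    rw [h2] at h1
    exact h1
  have hint' : ∀ i, IsIntegral ℤ (φ (w i)) := fun i => (hint i).map (φ.restrictScalars ℤ)
  have hq0 : (q : L) ≠ 0 := by exact_mod_cast (by omega : q ≠ 0)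
  have hq0' : (q : ℂ) ≠ 0 := by exact_mod_cast (by omega : q ≠ 0)
  set y : L := Δ / (q : L) ^ S with hy
  have hyΔ : Δ = ((q ^ S : ℕ) : L) * y := by
    rw [hy]
    push_cast
    field_simp
  have hy0 : y ≠ 0 := div_ne_zero hΔ0 (pow_ne_zero _ hq0)
  have hyφ : φ y = (Matrix.vandermonde fun i => φ (w i)).det / (q : ℂ) ^ S := by
    rw [hy, map_div₀, map_pow, map_natCast, hmap]
  have hyint : IsIntegral ℤ y := by
    have hδ1 : IsIntegral ℤ (φ y) := by
      apply int_of_val
      intro V hVi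
      rw [hyφ]
      by_cases hVq : (q : ℂ)⁻¹ ∈ V
      · rw [div_eq_mul_inv, ← inv_pow]
        refine V.mul_mem _ _ (det_mem _ fun i j => ?_) (V.toSubring.pow_mem hVq S)
        rw [Matrix.vandermonde_apply]
        exact V.toSubring.pow_mem (hVi _ (hint' i)) _
      · obtain ⟨H, hH1, hH2⟩ := hval V ⟨hVi, hVq⟩
        have h1 := vand_div_V (q := q) (V := V) (by omega) (fun i => φ (w i))
          (fun i => hVi _ (hint' i)) H F hFm hH2
        rw [hH1, ← hS] at h1
        exact h1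
    exact (isIntegral_algHom_iff (φ.restrictScalars ℤ) φ.toRingHom.injective).mp hδ1
  have h1 := pow_le_prod_norm hyint hy0 (q ^ S)
  rw [← hyΔ] at h1
  have h2 : ∀ σ : L →ₐ[ℚ] ℂ, 2 * Real.log ‖σ Δ‖ ≤
      N * Real.log N + 2 * ((N : ℝ) - 1) * ∑ i, Real.log (max 1 ‖σ (w i)‖) := by
    intro σ
    have h3 := vandermonde_le (fun i => σ (w i))
    rw [← hmap] at h3
    have hσ : 0 < ‖σ Δ‖ := norm_pos_iff.mpr ((map_ne_zero_iff σ σ.toRingHom.injective).mpr hΔ0)
    have h5 := Real.log_le_log (by positivity) h3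
    have hmax : ∀ i, (0:ℝ) < max 1 ‖σ (w i)‖ := fun i => lt_of_lt_of_le one_pos (le_max_left _ _)
    have hpos : ∀ i ∈ (Finset.univ : Finset (Fin N)), (max 1 ‖σ (w i)‖) ^ (2 * (N - 1)) ≠ 0 :=
      fun i _ => (pow_pos (hmax i) _).ne'
    have hN1 : (0 : ℝ) < N := by exact_mod_cast hN
    rw [Real.log_pow, Real.log_mul (by positivity) (Finset.prod_ne_zero_iff.mpr hpos),
      Real.log_pow, Real.log_prod hpos] at h5
    simp_rw [Real.log_pow] at h5
    rw [← Finset.mul_sum] at h5
    push_cast [Nat.cast_sub hN] at h5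
    linarith
  have h3 : 2 * (S : ℝ) * Real.log q * finrank ℚ L ≤
      finrank ℚ L * (N * Real.log N) + 2 * ((N : ℝ) - 1) * ∑ i, lam (w i) := by
    have hσ : ∀ σ : L →ₐ[ℚ] ℂ, 0 < ‖σ Δ‖ := fun σ =>
      norm_pos_iff.mpr ((map_ne_zero_iff σ σ.toRingHom.injective).mpr hΔ0)
    have hqr : (0 : ℝ) < q := by exact_mod_cast (by omega : 0 < q)
    have h4 := Real.log_le_log (by push_cast; positivity) h1
    rw [Real.log_pow, Nat.cast_pow, Real.log_pow, Real.log_prod (fun σ _ => (hσ σ).ne')] at h4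
    have h5 := Finset.sum_le_sum fun (σ : L →ₐ[ℚ] ℂ) (_ : σ ∈ Finset.univ) => h2 σ
    rw [← Finset.mul_sum, Finset.sum_add_distrib, Finset.sum_const, Finset.card_univ, AlgHom.card,
      nsmul_eq_mul, ← Finset.mul_sum, Finset.sum_comm] at h5
    calc 2 * (S : ℝ) * Real.log q * finrank ℚ L = 2 * (finrank ℚ L * (S * Real.log q)) := by ring
      _ ≤ 2 * ∑ σ : L →ₐ[ℚ] ℂ, Real.log ‖σ Δ‖ := by linarith
      _ ≤ _ := h5
  have hsb := sum_bound F.natDegree hFt (N - g) N
  rw [← hS, Nat.sub_sub_self hg] at hsb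
  have hsb' : (g : ℝ) * ((g : ℝ) - 2 * F.natDegree) ≤ 2 * F.natDegree * S := by exact_mod_cast hsb
  have hN1 : (0 : ℝ) < N := by exact_mod_cast hN
  have hp1 : (1 : ℝ) < q := by exact_mod_cast hq
  have hlogq : 0 < Real.log q := Real.log_pos hp1
  have hfr : (0 : ℝ) < finrank ℚ L := by exact_mod_cast finrank_pos (R := ℚ) (M := L)
  have hsum : 0 ≤ ∑ i, lam (w i) := Finset.sum_nonneg fun _ _ => lam_nonneg _
  have ht0 : (0:ℝ) < F.natDegree := by exact_mod_cast hFt
  calc (finrank ℚ L : ℝ) * ((g : ℝ) * ((g : ℝ) - 2 * F.natDegree) * Real.log q)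
      = (g : ℝ) * ((g : ℝ) - 2 * F.natDegree) * (Real.log q * finrank ℚ L) := by ring
    _ ≤ 2 * F.natDegree * S * (Real.log q * finrank ℚ L) :=
        mul_le_mul_of_nonneg_right hsb' (by positivity)
    _ = F.natDegree * (2 * S * Real.log q * finrank ℚ L) := by ring
    _ ≤ F.natDegree * (finrank ℚ L * (N * Real.log N) + 2 * ((N : ℝ) - 1) * ∑ i, lam (w i)) :=
        mul_le_mul_of_nonneg_left h3 ht0.le
    _ ≤ _ := by
        apply mul_le_mul_of_nonneg_left _ ht0.le
        nlinarith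

/-- **the number of good zeros is at least the degree of `A`** -/
theorem count_local {q : ℕ} (hq : q ≠ 0) (hV : Good q V) {ι : Type*} [Fintype ι] (w : ι → V)
    (A B R U W E : V[X]) (hA : A.Monic)
    (hf : ∏ i, (X - C (w i)) = A * B + C (q : V) * R)
    (hco : U * A + W * B = 1 + C (q : V) * E)
    (S : Finset ι) (hS : ∀ i, ((A.eval (w i) : V) : ℂ) / q ∈ V → i ∈ S) :
    A.natDegree ≤ S.card := by
  classical
  set ψ := IsLocalRing.residue V with hψ
  have hq0 : (q : ℂ) ≠ 0 := by exact_mod_cast hq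
  have hψq : ψ (q : V) = 0 := by
    rw [hψ, IsLocalRing.residue_eq_zero_iff, IsLocalRing.mem_maximalIdeal, mem_nonunits_iff]
    intro hu
    apply hV.inv
    obtain ⟨u, hu⟩ := hu
    have h1 : ((u : V) : ℂ) * (((u⁻¹ : Vˣ) : V) : ℂ) = 1 := congrArg Subtype.val u.mul_inv
    have h2 : ((u : V) : ℂ) = q := by rw [hu]; rfl
    rw [h2] at h1
    have h3 : (q : ℂ)⁻¹ = (((u⁻¹ : Vˣ) : V) : ℂ) := by
      rw [inv_eq_one_div, div_eq_iff hq0, mul_comm, h1]
    rw [h3]
    exact ((u⁻¹ : Vˣ) : V).2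
  have hfk : (A.map ψ) * (B.map ψ) = ∏ i, (X - C (ψ (w i))) := by
    have h1 := congrArg (Polynomial.map ψ) hf
    rw [Polynomial.map_prod, Polynomial.map_add, Polynomial.map_mul, Polynomial.map_mul,
      Polynomial.map_C, hψq, C_0, zero_mul, add_zero] at h1
    rw [← h1]
    refine Finset.prod_congr rfl fun i _ => ?_
    rw [Polynomial.map_sub, Polynomial.map_X, Polynomial.map_C]
  have hcok : (U.map ψ) * (A.map ψ) + (W.map ψ) * (B.map ψ) = 1 := by
    have h1 := congrArg (Polynomial.map ψ) hco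
    rwa [Polynomial.map_add, Polynomial.map_mul, Polynomial.map_mul, Polynomial.map_add,
      Polynomial.map_one, Polynomial.map_mul, Polynomial.map_C, hψq, C_0, zero_mul,
      add_zero] at h1
  have hgood : ∀ i, (A.map ψ).eval (ψ (w i)) = 0 → ((A.eval (w i) : V) : ℂ) / q ∈ V := by
    intro i h
    have hB0 : ψ (B.eval (w i)) ≠ 0 := by
      intro h0
      have h1 := congrArg (fun P => P.eval (ψ (w i))) hcok
      simp only [eval_add, eval_mul, eval_one] at h1
      have h3 : (B.map ψ).eval (ψ (w i)) = 0 := by rw [eval_map_apply, h0]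
      rw [h, h3] at h1
      simp at h1
    have h2 : A.eval (w i) * B.eval (w i) + (q : V) * R.eval (w i) = 0 := by
      have h1 := congrArg (fun P => P.eval (w i)) hf
      simp only [eval_add, eval_mul, eval_C] at h1
      rw [← h1, eval_prod]
      exact Finset.prod_eq_zero (Finset.mem_univ i) (by simp)
    have hu : IsUnit (B.eval (w i)) := by
      rwa [hψ, Ne, IsLocalRing.residue_eq_zero_iff, IsLocalRing.mem_maximalIdeal,
        mem_nonunits_iff, not_not] at hB0
    obtain ⟨u, hu⟩ := hu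
    have h3 : A.eval (w i) = (q : V) * (-(R.eval (w i)) * ((u⁻¹ : Vˣ) : V)) := by
      rw [← hu] at h2
      have h4 : A.eval (w i) * (u : V) = -((q : V) * R.eval (w i)) := by
        linear_combination h2
      calc A.eval (w i) = A.eval (w i) * (u : V) * ((u⁻¹ : Vˣ) : V) := by
            rw [mul_assoc, Units.mul_inv, mul_one]
        _ = _ := by rw [h4]; ring
    rw [h3]
    push_cast
    rw [mul_div_assoc, mul_comm, div_mul_cancel₀ _ hq0] <;> skip
    exact (-(R.eval (w i)) * ((u⁻¹ : Vˣ) : V)).2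
  have hdvd : A.map ψ ∣ (∏ i ∈ S, (X - C (ψ (w i)))) := by
    have h1 : A.map ψ ∣ (∏ i ∈ S, (X - C (ψ (w i)))) * ∏ i ∈ Sᶜ, (X - C (ψ (w i))) := by
      rw [Finset.prod_mul_prod_compl]
      exact ⟨B.map ψ, hfk.symm⟩
    apply IsCoprime.dvd_of_dvd_mul_right _ h1
    apply IsCoprime.prod_right
    intro i hi
    rw [Finset.mem_compl] at hi
    rw [isCoprime_comm, (irreducible_X_sub_C _).coprime_iff_not_dvd, dvd_iff_isRoot]
    intro h
    exact hi (hS i (hgood i h))
  have h2 := natDegree_le_of_dvd hdvd (Finset.prod_ne_zero_iff.mpr fun i _ => X_sub_C_ne_zero _)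
  rw [natDegree_prod _ _ fun i _ => X_sub_C_ne_zero _] at h2
  simp only [natDegree_X_sub_C, Finset.sum_const, smul_eq_mul, mul_one] at h2
  rwa [hA.natDegree_map] at h2

end Pool.Agent.TH860.LQ
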