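import Mathlib
import Pool.Agent.TH860.LQ.RelCore

/-!
# Local factors relative to an arbitrary field: the inequality
-/

set_option autoImplicit false

open Polynomial Finset Module IntermediateField

namespace Pool.Agent.TH860.LQ

open Pool.Agent.TH53.HR Pool.Agent.TH53.SL Pool.Agent.H388SL Pool.Agent.H389R3.LR
  Pool.Agent.H389R3.LP Pool.Agent.TH860.LP

/-- product over embeddings over a field `F` -/
lemma prod_emb_F {F K : Type*} [Field F] [CharZero F] [Field K] [Algebra F K]
    [FiniteDimensional F K] [Algebra F ℂ] (x : K) (g : ℂ → ℝ) :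
    ∏ σ : K →ₐ[F] ℂ, g (σ x) =
      (∏ τ : F⟮x⟯ →ₐ[F] ℂ, g (τ (AdjoinSimple.gen F x))) ^ Module.finrank F⟮x⟯ K := by
  classical
  have hgen : algebraMap F⟮x⟯ K (AdjoinSimple.gen F x) = x := AdjoinSimple.algebraMap_gen F x
  rw [Fintype.prod_equiv algHomEquivSigma (fun σ : K →ₐ[F] ℂ => g (σ x))
      (fun σ => g (σ.1 (AdjoinSimple.gen F x))), ← Finset.univ_sigma_univ, Finset.prod_sigma,
      ← Finset.prod_pow]
  · refine Finset.prod_congr rfl fun σ _ => ?_
    let : Algebra F⟮x⟯ ℂ := σ.toRingHom.toAlgebra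
    simp_rw [Finset.prod_const]
    congr
    exact AlgHom.card F⟮x⟯ K ℂ
  · intro σ
    simp only [algHomEquivSigma, Equiv.coe_fn_mk, AlgHom.domRestrict, AlgHom.comp_apply,
      IsScalarTower.coe_toAlgHom']
    rw [hgen]

lemma lift_V {V : ValuationSubring ℂ} (hVi : ∀ z : ℂ, IsIntegral ℤ z → z ∈ V)
    {F : IntermediateField ℚ ℂ} (P : F[X]) (hP : IntC P) :
    ∃ P' : V[X], P'.map V.subtype = P.map (algebraMap F ℂ) := by
  have h : P.map (algebraMap F ℂ) ∈ lifts V.subtype := by
    rw [lifts_iff_coeff_lifts]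
    intro n
    refine ⟨⟨_, hVi _ (hP n)⟩, ?_⟩
    rw [coeff_map]
    rfl
  exact (mem_lifts _).mp h

/-- a valuation ring for an integer `q` -/
lemma exists_val' (q : ℕ) (hq : 1 < q) : ∃ V : ValuationSubring ℂ, Good q V := by
  have hp : q.minFac.Prime := Nat.minFac_prime (by omega)
  obtain ⟨V, hV⟩ := exists_val q.minFac hp
  refine ⟨V, hV.int, fun h => hV.inv ?_⟩
  obtain ⟨c, hc⟩ := Nat.minFac_dvd q
  have hp0 : (q.minFac : ℂ) ≠ 0 := by exact_mod_cast hp.ne_zero
  have hq0 : (q : ℂ) ≠ 0 := by exact_mod_cast (by omega : q ≠ 0)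
  have h1 : (q.minFac : ℂ)⁻¹ = c * (q : ℂ)⁻¹ := by
    have h2 : (q : ℂ) = q.minFac * c := by exact_mod_cast hc
    rw [inv_eq_one_div, div_eq_iff hp0, mul_assoc, mul_comm ((q : ℂ)⁻¹), ← mul_assoc,
      mul_comm (c : ℂ), ← h2, mul_inv_cancel₀ hq0]
  rw [h1]
  exact V.mul_mem _ _ (hV.int _ (by
    simpa using isIntegral_algebraMap (R := ℤ) (A := ℂ) (x := (c : ℤ)))) h

/-- the number of good powers -/
theorem count_rel (F : IntermediateField ℚ ℂ) {α : ℂ} (hα : IsIntegral ℤ α) (q m : ℕ)
    (hq : 1 < q) (A B R U W E : F[X]) (G : ℂ[X]) (hA : A.Monic)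
    (iA : IntC A) (iB : IntC B) (iR : IntC R) (iU : IntC U) (iW : IntC W) (iE : IntC E)
    (hf : minpoly F α = A * B + C (q : F) * R)
    (hco : U * A + W * B = 1 + C (q : F) * E)
    (hG : ∀ z ∈ (minpoly F α).rootSet ℂ, ∃ x y : ℂ, IsIntegral ℤ x ∧ IsIntegral ℤ y ∧
      G.eval (z ^ m) = aeval z A * x + q * y) {V : ValuationSubring ℂ} (hV : Good q V)
    {T : Finset ℂ} (hT : (T : Set ℂ) = (fun z : ℂ => z ^ m) '' ((minpoly F α).rootSet ℂ))
    (P : ℂ → Prop) [DecidablePred P] (hP : ∀ x, G.eval x / q ∈ V → P x) :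
    A.natDegree * T.card ≤ (minpoly F α).natDegree * (T.filter P).card ∧
      T.card ≤ (minpoly F α).natDegree := by
  classical
  have hq0 : (q : ℂ) ≠ 0 := by exact_mod_cast (by omega : q ≠ 0)
  have hαF : IsIntegral F α := hα.tower_top
  have hfm : (minpoly F α).Monic := minpoly.monic hαF
  set K := F⟮α⟯ with hK
  have : FiniteDimensional F K := adjoin.finiteDimensional hαF
  set a : K := AdjoinSimple.gen F α with ha
  have haα : algebraMap K ℂ a = α := AdjoinSimple.algebraMap_gen F α
  have hmina : minpoly F a = minpoly F α := by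
    rw [← haα]
    exact (minpoly.algebraMap_eq (algebraMap K ℂ).injective a).symm
  have hrangeR : (Set.range fun σ : K →ₐ[F] ℂ => σ a) = (minpoly F α).rootSet ℂ := by
    rw [← hmina]
    exact Algebra.IsAlgebraic.range_eval_eq_rootSet_minpoly ℂ a
  have hroot : ∀ σ : K →ₐ[F] ℂ, σ a ∈ (minpoly F α).rootSet ℂ := fun σ =>
    hrangeR ▸ Set.mem_range_self σ
  have haint : ∀ σ : K →ₐ[F] ℂ, IsIntegral ℤ (σ a) := fun σ => root_integral hα (hroot σ)
  have hainj : Function.Injective fun σ : K →ₐ[F] ℂ => σ a := by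
    intro σ τ h
    apply adjoin_algHom_ext F (s := {α})
    intro x hx
    rw [Set.mem_singleton_iff] at hx
    subst hx
    exact h
  have hcard : Fintype.card (K →ₐ[F] ℂ) = (minpoly F α).natDegree := by
    rw [AlgHom.card, hK, adjoin.finrank hαF]
  have hprod : ∏ σ : K →ₐ[F] ℂ, (X - C (σ a)) = (minpoly F α).map (algebraMap F ℂ) := by
    have h1 : ∏ σ : K →ₐ[F] ℂ, (X - C (σ a)) ∣ (minpoly F α).map (algebraMap F ℂ) := by
      apply Finset.prod_dvd_of_coprime
      · intro σ _ τ _ hne
        exact pairwise_coprime_X_sub_C hainj hne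
      · intro σ _
        rw [dvd_iff_isRoot, IsRoot.def, eval_map_algebraMap]
        exact (mem_rootSet.mp (hroot σ)).2
    refine (eq_of_monic_of_dvd_of_natDegree_le (monic_prod_of_monic _ _ fun σ _ =>
      monic_X_sub_C _) (hfm.map _) h1 ?_).symm
    rw [natDegree_prod_of_monic _ _ fun σ _ => monic_X_sub_C _, hfm.natDegree_map]
    simp only [natDegree_X_sub_C, Finset.sum_const, smul_eq_mul, mul_one, Finset.card_univ]
    exact hcard.ge
  -- the powers
  set β : K := a ^ m with hβ
  set K' := F⟮β⟯ with hK'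
  set γ : K' := AdjoinSimple.gen F β with hγ
  have hγβ : algebraMap K' K γ = β := AdjoinSimple.algebraMap_gen F β
  let v : (K' →ₐ[F] ℂ) → ℂ := fun τ => τ γ
  have hvinj : Function.Injective v := by
    intro σ τ h
    apply adjoin_algHom_ext F (s := {β})
    intro x hx
    rw [Set.mem_singleton_iff] at hx
    subst hx
    exact h
  have hmin' : minpoly F β = minpoly F γ := by
    rw [← hγβ]
    exact minpoly.algebraMap_eq (algebraMap K' K).injective γ
  have hrange : (Set.range fun σ : K →ₐ[F] ℂ => σ a ^ m) = Set.range v := by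
    have h1 := Algebra.IsAlgebraic.range_eval_eq_rootSet_minpoly (F := F) ℂ β
    have h2 := Algebra.IsAlgebraic.range_eval_eq_rootSet_minpoly (F := F) ℂ γ
    have h3 : (fun σ : K →ₐ[F] ℂ => σ a ^ m) = fun σ : K →ₐ[F] ℂ => σ β := by
      funext σ
      rw [hβ, map_pow]
    rw [h3, h1, hmin', ← h2]
  have hTv : (T : Set ℂ) = Set.range v := by
    rw [hT, ← hrangeR, ← Set.range_comp, ← hrange]
    rfl
  have hTimg : T = Finset.univ.image v := by
    apply Finset.coe_injective
    rw [hTv, Finset.coe_image, Finset.coe_univ, Set.image_univ]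
  have hTcard : T.card = Fintype.card (K' →ₐ[F] ℂ) := by
    rw [hTimg, Finset.card_image_of_injective _ hvinj, Finset.card_univ]
  have hfilt : (T.filter P).card = (Finset.univ.filter fun τ => P (v τ)).card := by
    rw [hTimg, Finset.filter_image, Finset.card_image_of_injective _ hvinj]
  have hfib : ∀ (Q : ℂ → Prop) [DecidablePred Q],
      (Finset.univ.filter fun σ : K →ₐ[F] ℂ => Q (σ β)).card =
      finrank K' K * (Finset.univ.filter fun τ : K' →ₐ[F] ℂ => Q (v τ)).card := by
    intro Q _
    have h1 := prod_emb_F (F := F) β (fun z => if Q z then (2 : ℝ) else 1)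
    have h2 : ∏ σ : K →ₐ[F] ℂ, (if Q (σ β) then (2 : ℝ) else 1) =
        2 ^ (Finset.univ.filter fun σ : K →ₐ[F] ℂ => Q (σ β)).card := by
      rw [Finset.prod_ite, Finset.prod_const, Finset.prod_const_one, mul_one]
    have h3 : ∏ τ : K' →ₐ[F] ℂ, (if Q (τ γ) then (2 : ℝ) else 1) =
        2 ^ (Finset.univ.filter fun τ : K' →ₐ[F] ℂ => Q (v τ)).card := by
      rw [Finset.prod_ite, Finset.prod_const, Finset.prod_const_one, mul_one]
    rw [h2] at h1
    have h4 : (2 : ℝ) ^ (Finset.univ.filter fun σ : K →ₐ[F] ℂ => Q (σ β)).card =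
        (2 ^ (Finset.univ.filter fun τ : K' →ₐ[F] ℂ => Q (v τ)).card) ^ finrank K' K := by
      rw [h1, ← h3]
    rw [← pow_mul] at h4
    have h5 := pow_right_injective₀ (a := (2 : ℝ)) (by norm_num) (by norm_num) h4
    rw [h5, mul_comm]
  have hdeg : Fintype.card (K' →ₐ[F] ℂ) * finrank K' K = (minpoly F α).natDegree := by
    rw [AlgHom.card, finrank_mul_finrank, hK, adjoin.finrank hαF]
  have hy0 : 0 < finrank K' K := finrank_pos
  -- the local count
  obtain ⟨A1, hA1⟩ := lift_V hV.int A iA
  obtain ⟨B1, hB1⟩ := lift_V hV.int B iB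
  obtain ⟨R1, hR1⟩ := lift_V hV.int R iR
  obtain ⟨U1, hU1⟩ := lift_V hV.int U iU
  obtain ⟨W1, hW1⟩ := lift_V hV.int W iW
  obtain ⟨E1, hE1⟩ := lift_V hV.int E iE
  have hinj := Polynomial.map_injective V.subtype V.subtype_injective
  have hA1m : A1.Monic := Polynomial.monic_of_injective V.subtype_injective (by
    rw [hA1]
    exact hA.map _)
  have hCq : (C (q : V) : V[X]).map V.subtype = (C (q : F) : F[X]).map (algebraMap F ℂ) := by
    simp
  let w : (K →ₐ[F] ℂ) → V := fun σ => ⟨σ a, hV.int _ (haint σ)⟩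
  have hc := count_local (q := q) (by omega) hV w A1 B1 R1 U1 W1 E1 hA1m
    (by
      apply hinj
      rw [Polynomial.map_prod, Polynomial.map_add, Polynomial.map_mul, Polynomial.map_mul,
        hCq, hA1, hB1, hR1]
      have h1 : ∏ σ : K →ₐ[F] ℂ, (X - C (w σ)).map V.subtype = ∏ σ : K →ₐ[F] ℂ, (X - C (σ a)) := by
        refine Finset.prod_congr rfl fun σ _ => ?_
        rw [Polynomial.map_sub, Polynomial.map_X, Polynomial.map_C]
        rfl
      rw [h1, hprod, hf, Polynomial.map_add, Polynomial.map_mul, Polynomial.map_mul])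
    (by
      apply hinj
      rw [Polynomial.map_add, Polynomial.map_mul, Polynomial.map_mul, Polynomial.map_add,
        Polynomial.map_mul, Polynomial.map_C, hA1, hB1, hU1, hW1, hE1, Polynomial.map_one,
        map_natCast]
      have h1 := congrArg (Polynomial.map (algebraMap F ℂ)) hco
      rw [Polynomial.map_add, Polynomial.map_mul, Polynomial.map_mul, Polynomial.map_add,
        Polynomial.map_mul, Polynomial.map_C, Polynomial.map_one, map_natCast] at h1
      exact h1)
    (Finset.univ.filter fun σ : K →ₐ[F] ℂ => P (σ β)) (fun σ hσ => by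
      rw [Finset.mem_filter]
      refine ⟨Finset.mem_univ _, hP _ ?_⟩
      have h1 : ((A1.eval (w σ) : V) : ℂ) = aeval (σ a) A := by
        rw [← eval_map_algebraMap, ← hA1]
        change V.subtype (A1.eval (w σ)) = (A1.map V.subtype).eval (V.subtype (w σ))
        rw [eval_map, eval₂_at_apply]
      rw [h1] at hσ
      obtain ⟨x, y, hx, hy, hxy⟩ := hG _ (hroot σ)
      have h4 : G.eval (σ β) / q = (aeval (σ a) A / q) * x + y := by
        rw [hβ, map_pow, hxy]
        field_simp
      rw [h4]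
      exact V.add_mem _ _ (V.mul_mem _ _ hσ (hV.int _ hx)) (hV.int _ hy))
  have hA1d : A1.natDegree = A.natDegree := by
    rw [← natDegree_map_eq_of_injective V.subtype_injective A1, hA1, hA.natDegree_map]
  rw [hA1d, hfib P] at hc
  refine ⟨?_, ?_⟩
  · rw [hfilt, hTcard, ← hdeg]
    calc A.natDegree * Fintype.card (K' →ₐ[F] ℂ)
        ≤ (finrank K' K * (Finset.univ.filter fun τ : K' →ₐ[F] ℂ => P (v τ)).card) *
          Fintype.card (K' →ₐ[F] ℂ) := Nat.mul_le_mul_right _ hc
      _ = _ := by ring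
  · rw [hTcard, ← hdeg]
    exact Nat.le_mul_of_pos_right _ hy0

/-- **the inequality for local factors relative to an arbitrary field** -/
theorem rel_local (F : IntermediateField ℚ ℂ) {α : ℂ} (hα : IsIntegral ℤ α) (q m : ℕ)
    (hq : 1 < q) (A B R U W E : F[X]) (G : ℂ[X]) (hA : A.Monic) (hGm : G.Monic)
    (hG0 : 0 < G.natDegree)
    (iA : IntC A) (iB : IntC B) (iR : IntC R) (iU : IntC U) (iW : IntC W) (iE : IntC E)
    (hf : minpoly F α = A * B + C (q : F) * R)
    (hco : U * A + W * B = 1 + C (q : F) * E)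
    (hG : ∀ z ∈ (minpoly F α).rootSet ℂ, ∃ x y : ℂ, IsIntegral ℤ x ∧ IsIntegral ℤ y ∧
      G.eval (z ^ m) = aeval z A * x + q * y) :
    0 < pz m (minpoly F α) ∧ pz m (minpoly F α) ≤ (minpoly F α).natDegree ∧
    (A.natDegree : ℝ) * (A.natDegree * pz m (minpoly F α) -
      2 * G.natDegree * (minpoly F α).natDegree) * Real.log q ≤
      G.natDegree * (minpoly F α).natDegree ^ 2 * (Real.log (pz m (minpoly F α)) +
        2 * (m * (pz m (minpoly F α) * hgt α))) := by
  classical
  -- the polynomial `g` is the minimal polynomial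
  set g := minpoly ℤ α with hg
  have hαF : IsIntegral F α := hα.tower_top
  have hd0 : 0 < (minpoly F α).natDegree := minpoly.natDegree_pos hαF
  set S := (minpoly F α).rootSet ℂ with hS
  have hSfin : S.Finite := rootSet_finite _ _
  have hTfin : ((fun z : ℂ => z ^ m) '' S).Finite := hSfin.image _
  set T := hTfin.toFinset with hT
  have hTcoe : (T : Set ℂ) = (fun z : ℂ => z ^ m) '' S := hTfin.coe_toFinset
  have hcard : pz m (minpoly F α) = T.card := Set.ncard_eq_toFinset_card _ hTfin
  rw [hcard]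
  have hαS : α ∈ S := by
    rw [hS, mem_rootSet]
    exact ⟨minpoly.ne_zero hαF, minpoly.aeval F α⟩
  have hTne : T.Nonempty := ⟨α ^ m, by
    rw [hT, Set.Finite.mem_toFinset]
    exact ⟨α, hαS, rfl⟩⟩
  have hN : 0 < T.card := hTne.card_pos
  have hcount : ∀ V : ValuationSubring ℂ, Good q V →
      A.natDegree * T.card ≤ (minpoly F α).natDegree *
        (T.filter fun x => G.eval x / q ∈ V).card ∧
      T.card ≤ (minpoly F α).natDegree := fun V hV =>
    count_rel F hα q m hq A B R U W E G hA iA iB iR iU iW iE hf hco hG hV hTcoe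
      (fun x => G.eval x / q ∈ V) (fun x hx => hx)
  obtain ⟨V0, hV0⟩ := exists_val' q hq
  have hNd : T.card ≤ (minpoly F α).natDegree := (hcount V0 hV0).2
  refine ⟨hN, hNd, ?_⟩
  -- the number `n` of good powers
  set d := (minpoly F α).natDegree with hd
  set n := (A.natDegree * T.card + d - 1) / d with hn
  have hn1 : A.natDegree * T.card ≤ d * n := by
    have h1 := Nat.div_add_mod (A.natDegree * T.card + d - 1) d
    have h2 := Nat.mod_lt (A.natDegree * T.card + d - 1) hd0
    rw [← hn] at h1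
    omega
  have hn2 : ∀ k, A.natDegree * T.card ≤ d * k → n ≤ k := by
    intro k hk
    rw [hn]
    have h1 : A.natDegree * T.card + d - 1 < d * (k + 1) := by
      rw [mul_add, mul_one]
      omega
    have h2 := Nat.div_lt_of_lt_mul h1
    omega
  have hnT : ∀ V : ValuationSubring ℂ, Good q V →
      n ≤ (T.filter fun x => G.eval x / q ∈ V).card := fun V hV =>
    hn2 _ (hcount V hV).1
  have hnN : n ≤ T.card := (hnT V0 hV0).trans (Finset.card_filter_le _ _)
  -- the roots are conjugates over the rational field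
  have hroot : ∀ z ∈ S, aeval z g = 0 := by
    intro z hz
    have h1 : minpoly F α ∣ g.map (algebraMap ℤ F) := by
      apply minpoly.dvd
      rw [aeval_map_algebraMap]
      exact minpoly.aeval ℤ α
    have h2 := (mem_rootSet.mp hz).2
    obtain ⟨Y, hY⟩ := h1
    have h3 : aeval z (g.map (algebraMap ℤ F)) = 0 := by
      rw [hY, map_mul, h2, zero_mul]
    rwa [aeval_map_algebraMap] at h3
  have hgm : g.Monic := minpoly.monic hα
  set L := IntermediateField.adjoin ℚ (g.rootSet ℂ) with hL
  have hzR : ∀ z ∈ S, z ∈ g.rootSet ℂ := fun z hz => mem_rootSet.mpr ⟨hgm.ne_zero, hroot z hz⟩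
  have hint : ∀ z ∈ g.rootSet ℂ, IsIntegral ℤ z := fun z hz =>
    ⟨g, hgm, by rw [← Polynomial.aeval_def]; exact (mem_rootSet.mp hz).2⟩
  have : Finite (g.rootSet ℂ) := (rootSet_finite g ℂ).to_subtype
  have hfin : FiniteDimensional ℚ L := IntermediateField.finiteDimensional_adjoin
    fun z hz => (hint z hz).tower_top
  have : NumberField L := { to_charZero := inferInstance, to_finiteDimensional := hfin }
  -- choice of representatives
  have hmemT : ∀ x ∈ T, x ∈ (fun z : ℂ => z ^ m) '' S := fun x hx => hTfin.mem_toFinset.mp hx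
  let e := T.equivFin.symm
  have hex : ∀ i : Fin T.card, ∃ z ∈ S, z ^ m = (e i : ℂ) := by
    intro i
    obtain ⟨z, hz, h2⟩ := hmemT _ (e i).2
    exact ⟨z, hz, h2⟩
  choose z hzR' hze using hex
  let z' : Fin T.card → L := fun i => ⟨z i, IntermediateField.subset_adjoin ℚ _ (hzR _ (hzR' i))⟩
  have hz'z : ∀ i, algebraMap L ℂ (z' i) = z i := fun i => rfl
  have hz'int : ∀ i, IsIntegral ℤ (z' i) := by
    intro i
    have h1 := hint _ (hzR _ (hzR' i))
    rw [← hz'z] at h1
    exact (isIntegral_algebraMap_iff (algebraMap L ℂ).injective).mp h1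
  have hmin : ∀ i, minpoly ℤ (z' i) = g := by
    intro i
    have h1 : minpoly ℤ (z i) = minpoly ℤ (z' i) := by
      rw [← hz'z]
      exact minpoly.algebraMap_eq (algebraMap L ℂ).injective (z' i)
    rw [← h1]
    have h2 := minpoly.isIntegrallyClosed_dvd (hint _ (hzR _ (hzR' i))) (hroot _ (hzR' i))
    have h3 : Associated (minpoly ℤ (z i)) g :=
      (minpoly.irreducible (hint _ (hzR _ (hzR' i)))).associated_of_dvd (minpoly.irreducible hα) h2
    exact eq_of_monic_of_associated (minpoly.monic (hint _ (hzR _ (hzR' i)))) hgm h3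
  let φ : L →ₐ[ℚ] ℂ := L.val
  have hφ : ∀ i, φ (z' i ^ m) = e i := by
    intro i
    rw [map_pow]
    exact hze i
  have hinj : Function.Injective fun i => z' i ^ m := by
    intro i j h
    have h1 := congrArg φ h
    simp only [hφ] at h1
    exact e.injective (Subtype.ext h1)
  have h := rel_core_ex hN (fun i => z' i ^ m) (fun i => (hz'int i).pow _) hinj φ
    G hGm hG0 q hq n hnN
    (fun V hV => by
      set bad : Finset (Fin T.card) := Finset.univ.filter fun i =>
        ¬ G.eval (e i : ℂ) / q ∈ V with hbad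
      have hgoodcard : (Finset.univ.filter fun i : Fin T.card =>
          G.eval (e i : ℂ) / q ∈ V).card =
          (T.filter fun x => G.eval x / q ∈ V).card := by
        refine Finset.card_bij (fun i _ => (e i : ℂ)) ?_ ?_ ?_
        · intro i hi
          rw [Finset.mem_filter] at hi ⊢
          exact ⟨(e i).2, hi.2⟩
        · intro i _ j _ hij
          exact e.injective (Subtype.ext hij)
        · intro x hx
          rw [Finset.mem_filter] at hx
          refine ⟨e.symm ⟨x, hx.1⟩, ?_, by simp⟩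
          rw [Finset.mem_filter]
          exact ⟨Finset.mem_univ _, by simpa using hx.2⟩
      have hbadcard : bad.card ≤ T.card - n := by
        have h1 := Finset.card_filter_add_card_filter_not (s := (Finset.univ : Finset (Fin T.card)))
          (fun i : Fin T.card => G.eval (e i : ℂ) / q ∈ V)
        rw [hgoodcard, Finset.card_univ, Fintype.card_fin, ← hbad] at h1
        have h2 := hnT V hV
        omega
      obtain ⟨H, hH1, hH2⟩ := Finset.exists_superset_card_eq hbadcard (by
        rw [Fintype.card_fin]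
        exact Nat.sub_le _ _)
      refine ⟨H, hH2, fun i hi => ?_⟩
      rw [hφ]
      by_contra hcon
      exact hi (hH1 (by
        rw [hbad, Finset.mem_filter]
        exact ⟨Finset.mem_univ _, hcon⟩)))
  have hlam : ∀ i, lam (z' i ^ m) = m * (finrank ℚ L * hgt α) := by
    intro i
    rw [lam_pow, lam_root (hz'int i), hmin]
    rfl
  simp_rw [hlam] at h
  rw [Finset.sum_const, Finset.card_univ, Fintype.card_fin, nsmul_eq_mul] at h
  have hfr : (0 : ℝ) < finrank ℚ L := by exact_mod_cast finrank_pos (R := ℚ) (M := L)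
  have h2 : (finrank ℚ L : ℝ) * ((n : ℝ) * ((n : ℝ) - 2 * G.natDegree) * Real.log q) ≤
      finrank ℚ L * (G.natDegree * (T.card * (Real.log T.card + 2 * (m * (T.card *
          hgt α))))) := by
    refine h.trans (le_of_eq ?_)
    ring
  have h3 := le_of_mul_le_mul_left h2 hfr
  -- conclusion
  have hlq : 0 < Real.log q := Real.log_pos (by exact_mod_cast hq)
  have hhgt : 0 ≤ hgt α := by
    have h4 : lam (z' ⟨0, hN⟩) = finrank ℚ L * hgt α := by
      rw [lam_root (hz'int _), hmin]
      rfl
    have h5 : 0 ≤ (finrank ℚ L : ℝ) * hgt α := by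
      rw [← h4]
      exact lam_nonneg _
    exact le_of_mul_le_mul_left (a := (finrank ℚ L : ℝ)) (by rw [mul_zero]; exact h5) hfr
  have hN' : (0 : ℝ) < T.card := by exact_mod_cast hN
  have hd' : (0 : ℝ) < (d : ℝ) := by exact_mod_cast hd0
  have hD' : (0 : ℝ) < G.natDegree := by exact_mod_cast hG0
  have hlN : 0 ≤ Real.log T.card := Real.log_nonneg (by exact_mod_cast hN)
  have hY : 0 ≤ Real.log T.card + 2 * (m * (T.card * hgt α)) := by positivity
  set Y : ℝ := Real.log T.card + 2 * (m * (T.card * hgt α)) with hYdef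
  have hn1' : (A.natDegree : ℝ) * T.card ≤ d * n := by exact_mod_cast hn1
  have ha0 : (0 : ℝ) ≤ A.natDegree := Nat.cast_nonneg _
  rcases le_or_gt ((A.natDegree : ℝ) * T.card) (2 * G.natDegree * d) with h6 | h6
  · refine le_trans ?_ (mul_nonneg (by positivity) hY)
    apply mul_nonpos_of_nonpos_of_nonneg _ hlq.le
    exact mul_nonpos_of_nonneg_of_nonpos ha0 (by linarith)
  · have k1 : ((A.natDegree : ℝ) * T.card) * (A.natDegree * T.card - 2 * G.natDegree * d) ≤
        (d * n) * (d * n - 2 * G.natDegree * d) :=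
      mul_le_mul hn1' (by linarith) (by linarith) (by positivity)
    refine le_of_mul_le_mul_left (a := (T.card : ℝ)) ?_ hN'
    calc (T.card : ℝ) * ((A.natDegree : ℝ) * (A.natDegree * T.card - 2 * G.natDegree * d) *
          Real.log q)
        = ((A.natDegree : ℝ) * T.card) * (A.natDegree * T.card - 2 * G.natDegree * d) *
          Real.log q := by ring
      _ ≤ (d * n) * (d * n - 2 * G.natDegree * d) * Real.log q :=
          mul_le_mul_of_nonneg_right k1 hlq.le
      _ = (d : ℝ) ^ 2 * ((n : ℝ) * ((n : ℝ) - 2 * G.natDegree) * Real.log q) := by ring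
      _ ≤ (d : ℝ) ^ 2 * (G.natDegree * (T.card * Y)) :=
          mul_le_mul_of_nonneg_left h3 (by positivity)
      _ = _ := by ring

end Pool.Agent.TH860.LQ
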