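import Mathlib
import Pool.Agent.TH860.LQ.RelMain

/-!
# Local factors relative to an arbitrary field: consequences
-/

set_option autoImplicit false

open Polynomial Finset Module IntermediateField

namespace Pool.Agent.TH860.LQ

open Pool.Agent.TH860.LP

variable {F : IntermediateField ℚ ℂ}

/-- the inequality -/
def Ineq (F : IntermediateField ℚ ℂ) (α : ℂ) (q m a D : ℕ) : Prop :=
  0 < pz m (minpoly F α) ∧ pz m (minpoly F α) ≤ (minpoly F α).natDegree ∧
    (a : ℝ) * (a * pz m (minpoly F α) - 2 * D * (minpoly F α).natDegree) * Real.log q ≤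
      D * (minpoly F α).natDegree ^ 2 * (Real.log (pz m (minpoly F α)) +
        2 * (m * (pz m (minpoly F α) * hgt α)))

/-- `A` divides `G (X ^ m)` modulo `q` -/
theorem local_comp {α : ℂ} (hα : IsIntegral ℤ α) (q m : ℕ) (hq : 1 < q)
    (A B R U W E G A' B' : F[X]) (hA : A.Monic) (hGm : G.Monic) (hG0 : 0 < G.natDegree)
    (iA : IntC A) (iB : IntC B) (iR : IntC R) (iU : IntC U) (iW : IntC W) (iE : IntC E)
    (iA' : IntC A') (iB' : IntC B') (hf : minpoly F α = A * B + C (q : F) * R)
    (hco : U * A + W * B = 1 + C (q : F) * E)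
    (hG : G.comp (X ^ m) = A * A' + C (q : F) * B') : Ineq F α q m A.natDegree G.natDegree := by
  have h := rel_local F hα q m hq A B R U W E (G.map (algebraMap F ℂ)) hA (hGm.map _)
    (by rw [hGm.natDegree_map]; exact hG0) iA iB iR iU iW iE hf hco (fun z hz => by
      have hzi := root_integral hα hz
      refine ⟨aeval z A', aeval z B', iA'.aeval hzi, iB'.aeval hzi, ?_⟩
      have h3 := congrArg (aeval z) hG
      rw [aeval_comp, map_pow, aeval_X, map_add, map_mul, map_mul, aeval_C, map_natCast] at h3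
      rw [eval_map_algebraMap, h3])
  rw [hGm.natDegree_map] at h
  exact h

/-- `A` divides `H ^ (p ^ t)` modulo `p` -/
theorem local_prime {α : ℂ} (hα : IsIntegral ℤ α) {p : ℕ} (hp : p.Prime) (t : ℕ)
    (A B R U W E H A' B' : F[X]) (hA : A.Monic) (hHm : H.Monic) (hH0 : 0 < H.natDegree)
    (iA : IntC A) (iB : IntC B) (iR : IntC R) (iU : IntC U) (iW : IntC W) (iE : IntC E)
    (iH : IntC H) (iA' : IntC A') (iB' : IntC B') (hf : minpoly F α = A * B + C (p : F) * R)
    (hco : U * A + W * B = 1 + C (p : F) * E)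
    (hH : H ^ p ^ t = A * A' + C (p : F) * B') :
    Ineq F α p (p ^ t) A.natDegree H.natDegree := by
  set m := p ^ t with hm
  set D := H.natDegree with hD
  set G : ℂ[X] := X ^ D + ∑ i ∈ Finset.range D, C (((H.coeff i : F) : ℂ) ^ m) * X ^ i with hG
  have hlow : (∑ i ∈ Finset.range D, C (((H.coeff i : F) : ℂ) ^ m) * X ^ i : ℂ[X]).degree < D := by
    refine (degree_sum_le _ _).trans_lt ?_
    rw [Finset.sup_lt_iff (by exact_mod_cast WithBot.bot_lt_coe D)]
    intro i hi
    exact (degree_C_mul_X_pow_le _ _).trans_lt (by exact_mod_cast Finset.mem_range.mp hi)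
  have hGm : G.Monic := monic_X_pow_add hlow
  have hGd : G.natDegree = D := by
    rw [hG]
    rw [natDegree_add_eq_left_of_degree_lt (by rw [degree_X_pow]; exact hlow), natDegree_X_pow]
  have h := rel_local F hα p m hp.one_lt A B R U W E G hA hGm (by rw [hGd]; exact hH0)
    iA iB iR iU iW iE hf hco (fun z hz => by
      have hzi := root_integral hα hz
      have h1 := congrArg (aeval z) hH
      rw [map_pow, map_add, map_mul, map_mul, aeval_C, map_natCast] at h1
      have h2 : aeval z H = ∑ i ∈ Finset.range (D + 1), ((H.coeff i : F) : ℂ) * z ^ i := by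
        rw [aeval_eq_sum_range]
        refine Finset.sum_congr rfl fun i _ => ?_
        rw [Algebra.smul_def]
        rfl
      obtain ⟨r, hr1, hr2⟩ := sum_pow_mod hp t (Finset.range (D + 1))
        (fun i => ((H.coeff i : F) : ℂ) * z ^ i) (fun i _ => (iH i).mul (hzi.pow i))
      rw [← h2, ← hm, h1] at hr2
      refine ⟨aeval z A', aeval z B' - r, iA'.aeval hzi, (iB'.aeval hzi).sub hr1, ?_⟩
      have h3 : G.eval (z ^ m) =
          ∑ i ∈ Finset.range (D + 1), (((H.coeff i : F) : ℂ) * z ^ i) ^ m := by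
        rw [Finset.sum_range_succ, hG]
        simp only [eval_add, eval_pow, eval_X, eval_finsetSum, eval_mul, eval_C]
        have h4 : H.coeff D = 1 := hHm.coeff_natDegree
        rw [h4, add_comm]
        congr 1
        · refine Finset.sum_congr rfl fun i _ => ?_
          rw [mul_pow]
          ring
        · push_cast
          ring
      rw [h3]
      linear_combination -hr2)
  rw [hGd] at h
  exact h

/-- from the inequality to a bound for the height -/
lemma to_height_local {α : ℂ} {q m a D : ℕ} (ha : 0 < a) (hD : 0 < D) (hm : 0 < m)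
    (hq : 1 < q) (h : Ineq F α q m a D)
    (h2 : 4 * D * (minpoly F α).natDegree ≤ a * pz m (minpoly F α))
    (h3 : 4 * (D : ℝ) * (minpoly F α).natDegree ^ 2 * Real.log (pz m (minpoly F α)) ≤
      (a : ℝ) ^ 2 * pz m (minpoly F α) * Real.log q) :
    ((a : ℝ) / (minpoly F α).natDegree) ^ 2 * (Real.log q / (8 * (m * D))) ≤ hgt α := by
  obtain ⟨hN, hNd, h1⟩ := h
  have hq0 : 0 < Real.log q := Real.log_pos (by exact_mod_cast hq)
  have hN' : (0 : ℝ) < pz m (minpoly F α) := by exact_mod_cast hN
  have hd' : (0 : ℝ) < (minpoly F α).natDegree := by exact_mod_cast hN.trans_le hNd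
  have hD' : (0 : ℝ) < D := by exact_mod_cast hD
  have hm' : (0 : ℝ) < m := by exact_mod_cast hm
  have ha' : (0 : ℝ) < a := by exact_mod_cast ha
  have h2' : 4 * (D : ℝ) * (minpoly F α).natDegree ≤ a * pz m (minpoly F α) := by
    exact_mod_cast h2
  set N : ℝ := (pz m (minpoly F α) : ℝ) with hNdef
  set d : ℝ := ((minpoly F α).natDegree : ℝ) with hddef
  have h4 : (a : ℝ) * (a * N / 2) * Real.log q ≤ a * (a * N - 2 * D * d) * Real.log q := by
    apply mul_le_mul_of_nonneg_right _ hq0.le
    apply mul_le_mul_of_nonneg_left _ ha'.le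
    linarith
  have h5 : N * ((a : ℝ) ^ 2 * Real.log q) ≤ N * (8 * (m * D) * d ^ 2 * hgt α) := by
    nlinarith
  have h6 := le_of_mul_le_mul_left h5 hN'
  rw [div_pow, div_mul_div_comm, div_le_iff₀ (by positivity)]
  linarith

/-- Rémond's form -/
lemma to_remond_local {α : ℂ} {q m a D : ℕ} (ha : 0 < a) (hD : 0 < D) (hm : 0 < m)
    (hq : 1 < q) (h : Ineq F α q m a D)
    (h2 : 4 * D * (minpoly F α).natDegree ≤ a * pz m (minpoly F α))
    (h3 : 4 * (D : ℝ) * (minpoly F α).natDegree ^ 2 * Real.log (pz m (minpoly F α)) ≤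
      (a : ℝ) ^ 2 * pz m (minpoly F α) * Real.log q) (c : ℝ) (hc : 0 < c)
    (hmD : (m : ℝ) * D ≤ c * a) :
    ((a : ℝ) / (minpoly F α).natDegree * Real.log q / (8 * c)) / (minpoly F α).natDegree ≤
      hgt α := by
  have h4 := to_height_local ha hD hm hq h h2 h3
  refine le_trans ?_ h4
  have hq0 : 0 < Real.log q := Real.log_pos (by exact_mod_cast hq)
  have hd' : (0 : ℝ) < (minpoly F α).natDegree := by exact_mod_cast h.1.trans_le h.2.1
  have hD' : (0 : ℝ) < D := by exact_mod_cast hD
  have hm' : (0 : ℝ) < m := by exact_mod_cast hm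
  have ha' : (0 : ℝ) < a := by exact_mod_cast ha
  set d : ℝ := ((minpoly F α).natDegree : ℝ) with hddef
  have e1 : ((a : ℝ) / d * Real.log q / (8 * c)) / d =
      ((a : ℝ) / d) ^ 2 * (Real.log q / (8 * (c * a))) := by
    field_simp
  rw [e1]
  apply mul_le_mul_of_nonneg_left _ (by positivity)
  apply div_le_div_of_nonneg_left hq0.le (by positivity)
  linarith

end Pool.Agent.TH860.LQ
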